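import Pool.Agent.ANO3.Conn.Apply

/-!
# ANO3, module End: the inputs of the final argument
-/

set_option autoImplicit false

open scoped UpperHalfPlane MatrixGroups
open Set Filter Topology

namespace Pool.Agent.ANO3

open Pool.Agent.ANO Pool.Agent.ANO2 Pool.Agent.ANO3.Tree

variable {r : ℕ} {S : Fin r → SurfaceMap}

/-- (N): there is exactly one point over a regular type. -/
def SingleNN (F : ∀ i, Flat (S i)) (T : X r 0 ≃ₜ X r 0) : Prop :=
  ∀ w : Fin r → ℍ, (∀ i, (F i).Reg (w i)) → ∃ q, NN F T w w = {q}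

/-- There are only countably many points over each type. -/
def CountableNN (F : ∀ i, Flat (S i)) (T : X r 0 ≃ₜ X r 0) : Prop :=
  ∀ w : Fin r → ℍ, IsType F w → (NN F T w w).Countable

/-- Points which are close to each other have brackets. -/
def HasBracket (F : ∀ i, Flat (S i)) (T : X r 0 ≃ₜ X r 0) : Prop :=
  ∀ b : X r 0, ∃ V ∈ 𝓝 b, ∀ x ∈ V, ∀ y ∈ V, ∃ p : X r 0, ∀ i,
    DU F T i (Sum.inr x) (Sum.inr p) = 0 ∧ DS F T i (Sum.inr y) (Sum.inr p) = 0

end Pool.Agent.ANO3
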