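import Pool.Agent.ANO3.End.Rho

/-!
# ANO3, module End: comparison of the degrees (package END-CMP)

`w k`, `w' k` converge to `v` along the initial segments of the arms (`Conv`).  Then for large `k`
the map with the coordinates `-rho du (w k) v` (positive beyond `w k`), `-rho ds (w' k) v`, `o` has
the same degree on `N` as the map with `rho du v (w k)`, `rho ds v (w' k)`, `o`.

Proof.  By `Deg.deg_homotopy` (straight homotopy; all functions are continuous on `O`:
`continuous_rho`, `cι`, `co`) it is enough that for large `k` there are no `t ∈ [0, 1]`,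
`x ∈ frontier N` with
`(1 - t) (-rho du (w k) v x) + t rho du v (w k) x = 0`, the same for `ds`, and `o x = 0`.
Otherwise there are `k_j → ∞`, `t_j`, `x_j` with these properties, and by compactness of the
frontier `x_j → x ∈ frontier N` (subsequence).  `o x = 0`, so `du v x > 0` or `ds v x > 0`
(`D.ne`); say `du v x > 0` (else use `D.swap`, or do it twice).  For large `j`:
`du x x_j + du v (w k_j) < du v x`.  Then `SameArm du v x x_j` (`sameArm_of_lt`).
* `SameArm du v x (w k_j)`: by `Conv.btw`, `Btw du v (w k_j) x`, so `Btw du v (w k_j) x_j`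
  (`btw_of_near`), `du (w k_j) x_j = du v x_j - du v (w k_j) > 0`: both functions are positive at
  `x_j`, contradiction.
* otherwise `¬ SameArm du v (w k_j) x_j`, so `rho du v (w k_j) x_j < 0`, and
  `¬ Btw du v (w k_j) x_j` (`btw_sameArm`): both functions are negative, contradiction.
-/

set_option autoImplicit false

open Set Filter Topology

namespace Pool.Agent.ANO3.End

open Pool.Agent.ANO3 Pool.Agent.ANO3.Tree

variable {P E F : Type} [TopologicalSpace P] [NormedAddCommGroup E] [NormedSpace ℝ E]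
  [NormedAddCommGroup F] [NormedSpace ℝ F]

/-- A subsequence converges, too. -/
private theorem Conv.comp_Cmp {d : P → P → ℝ} {v : P} {w : ℕ → P} (hw : Conv d v w) {φ : ℕ → ℕ}
    (hφ : Tendsto φ atTop atTop) : Conv d v (fun n => w (φ n)) where
  pos := fun k => hw.pos (φ k)
  lim := hw.lim.comp hφ
  btw := fun p hp => hφ.eventually (hw.btw p hp)

private theorem Data.continuous_Phi_Cmp (D : Data P E F) {a b : ℝ → P → ℝ}
    (ha : Continuous fun q : ℝ × P => a q.1 q.2) (hb : Continuous fun q : ℝ × P => b q.1 q.2) :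
    ContinuousOn (fun q : ℝ × E => D.Phi (a q.1) (b q.1) q.2) (Icc 0 1 ×ˢ D.O) := by
  unfold Data.Phi
  have hι : ContinuousOn (fun q : ℝ × E => (q.1, D.ι q.2)) (Icc (0 : ℝ) 1 ×ˢ D.O) :=
    continuousOn_fst.prodMk (D.cι.comp continuousOn_snd fun q hq => hq.2)
  have ho : ContinuousOn (fun q : ℝ × E => D.o q.2) (Icc (0 : ℝ) 1 ×ˢ D.O) :=
    D.co.comp continuousOn_snd fun q hq => hq.2
  exact D.e.continuous.comp_continuousOn
    (((ha.comp_continuousOn hι).prodMk (hb.comp_continuousOn hι)).prodMk ho)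

private theorem Data.Phi_eq_zero_Cmp (D : Data P E F) {a b : P → ℝ} {x : E}
    (h : D.Phi a b x = 0) : a (D.ι x) = 0 ∧ b (D.ι x) = 0 ∧ D.o x = 0 := by
  unfold Data.Phi at h
  have h1 := D.e.map_eq_zero_iff.1 h
  have h2 := congrArg Prod.fst h1
  have h3 := congrArg Prod.snd h1
  exact ⟨congrArg Prod.fst h2, congrArg Prod.snd h2, h3⟩

/-- A convex combination of numbers of the same sign. -/
private theorem convex_ne_Cmp {A A' t : ℝ} (ht : t ∈ Icc (0 : ℝ) 1)
    (h : (0 < A ∧ 0 < A') ∨ (A < 0 ∧ A' < 0)) : (1 - t) * A + t * A' ≠ 0 := by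
  obtain ⟨h0, h1⟩ := ht
  intro hz
  rcases h with ⟨hA, hA'⟩ | ⟨hA, hA'⟩
  · rcases eq_or_lt_of_le h0 with h2 | h2
    · rw [← h2] at hz
      linarith
    · have h3 := mul_pos h2 hA'
      have h4 := mul_nonneg (sub_nonneg.2 h1) hA.le
      linarith
  · rcases eq_or_lt_of_le h0 with h2 | h2
    · rw [← h2] at hz
      linarith
    · have h3 := mul_pos h2 (neg_pos.2 hA')
      have h4 := mul_nonneg (sub_nonneg.2 h1) (neg_nonneg.2 hA.le)
      linarith

/-- The key point: no zero of a convex combination near `x` in one tree. -/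
theorem Conv.same_sign {d : P → P → ℝ} (h : IsTree d) {v : P} {w : ℕ → P} (hw : Conv d v w)
    {p : P} (hp : 0 < d v p) {y : ℕ → P} (hy : Tendsto (fun k => d p (y k)) atTop (𝓝 0)) :
    ∀ᶠ k in atTop, (0 < -rho d (w k) v (y k) ∧ 0 < rho d v (w k) (y k)) ∨
      (-rho d (w k) v (y k) < 0 ∧ rho d v (w k) (y k) < 0) := by
  have hlim : Tendsto (fun k => d p (y k) + d v (w k)) atTop (𝓝 (0 + 0)) := hy.add hw.lim
  rw [add_zero] at hlim
  filter_upwards [hlim.eventually (gt_mem_nhds hp), hw.btw p hp] with k hk hb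
  have hwk := hw.pos k
  have h0 := h.nonneg p (y k)
  have hpy : SameArm d v p (y k) := sameArm_of_lt h (by linarith)
  by_cases hs : SameArm d v p (w k)
  · left
    have hbt := btw_of_near h (hb hs) (x' := y k) (by linarith)
    refine ⟨(neg_rho_pos_iff h v (w k) (y k)).2 ⟨?_, hbt⟩, (rho_pos_iff h v (w k) (y k)).2
      (sameArm_trans h (sameArm_symm h hs) hpy)⟩
    have h1 : d v (w k) + d (w k) (y k) = d v (y k) := hbt
    have h2 := h.triangle v (y k) p
    rw [h.symm (y k) p] at h2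
    linarith
  · right
    have hns : ¬ SameArm d v (w k) (y k) := fun h1 =>
      hs (sameArm_trans h hpy (sameArm_symm h h1))
    refine ⟨(neg_rho_neg_iff h v (w k) (y k)).2 fun hbt => hns (btw_sameArm h hwk hbt),
      (rho_neg_iff h v (w k) (y k)).2 ⟨?_, hns⟩⟩
    have h2 := h.triangle v (y k) p
    rw [h.symm (y k) p] at h2
    linarith

theorem Data.adm_dg (D : Data P E F) (p p' : P) :
    Deg.Adm (D.Phi (rho D.du D.v p) (rho D.ds D.v p')) D.N := by
  refine ⟨D.compact, ⟨D.O, D.isOpen, D.sub, ?_⟩, fun x hx h0 => ?_⟩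
  · have h1 := D.continuous_Phi_Cmp (a := fun _ => rho D.du D.v p)
      (b := fun _ => rho D.ds D.v p') ((continuous_rho D.hu D.cu D.v p).comp continuous_snd)
      ((continuous_rho D.hs D.cs D.v p').comp continuous_snd)
    exact h1.comp (f := fun x : E => ((0 : ℝ), x)) (by fun_prop)
      fun x hx => ⟨⟨le_rfl, zero_le_one⟩, hx⟩
  · obtain ⟨h1, h2, h3⟩ := D.Phi_eq_zero_Cmp h0
    exact D.ne x hx ((rho_eq_zero_iff D.hu _ _ _).1 h1) ((rho_eq_zero_iff D.hs _ _ _).1 h2) h3

theorem Data.cmp [FiniteDimensional ℝ E] (D : Data P E F) {w w' : ℕ → P}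
    (hw : Conv D.du D.v w) (hw' : Conv D.ds D.v w') :
    ∀ᶠ k in atTop,
      Deg.deg (D.Phi (fun x => -rho D.du (w k) D.v x) (fun x => -rho D.ds (w' k) D.v x)) D.N =
        D.dg (w k) (w' k) := by
  haveI := D.nontrivial
  have hfr : frontier D.N ⊆ D.N := D.compact.isClosed.frontier_subset
  have hK : IsCompact (frontier D.N) := D.compact.of_isClosed_subset isClosed_frontier hfr
  -- no zero on the frontier during the homotopy
  have key : ∀ᶠ k in atTop, ¬ ∃ t ∈ Icc (0 : ℝ) 1, ∃ x ∈ frontier D.N,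
      (1 - t) * (-rho D.du (w k) D.v (D.ι x)) + t * rho D.du D.v (w k) (D.ι x) = 0 ∧
      (1 - t) * (-rho D.ds (w' k) D.v (D.ι x)) + t * rho D.ds D.v (w' k) (D.ι x) = 0 ∧
      D.o x = 0 := by
    by_contra hcon
    have hfreq : ∃ᶠ k in atTop, ∃ t ∈ Icc (0 : ℝ) 1, ∃ x ∈ frontier D.N,
        (1 - t) * (-rho D.du (w k) D.v (D.ι x)) + t * rho D.du D.v (w k) (D.ι x) = 0 ∧
        (1 - t) * (-rho D.ds (w' k) D.v (D.ι x)) + t * rho D.ds D.v (w' k) (D.ι x) = 0 ∧
        D.o x = 0 := by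
      intro h1
      exact hcon h1
    obtain ⟨φ, hφ, hB⟩ := extraction_of_frequently_atTop hfreq
    choose t ht x hx hu hs ho using hB
    obtain ⟨x₀, hx₀, ψ, hψ, hlim⟩ := hK.tendsto_subseq hx
    have hφψ : Tendsto (fun n => φ (ψ n)) atTop atTop :=
      hφ.tendsto_atTop.comp hψ.tendsto_atTop
    have hx₀O : x₀ ∈ D.O := D.sub (hfr hx₀)
    have hxO : ∀ n, x (ψ n) ∈ D.O := fun n => D.sub (hfr (hx _))
    have hlimO : Tendsto (fun n => x (ψ n)) atTop (𝓝[D.O] x₀) :=
      tendsto_nhdsWithin_iff.2 ⟨hlim, Eventually.of_forall hxO⟩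
    have hι : Tendsto (fun n => D.ι (x (ψ n))) atTop (𝓝 (D.ι x₀)) :=
      (D.cι x₀ hx₀O).tendsto.comp hlimO
    have ho0 : D.o x₀ = 0 := by
      have h1 : Tendsto (fun n => D.o (x (ψ n))) atTop (𝓝 (D.o x₀)) :=
        (D.co x₀ hx₀O).tendsto.comp hlimO
      have h2 : (fun n => D.o (x (ψ n))) = fun _ => (0 : F) := funext fun n => ho _
      rw [h2] at h1
      exact tendsto_nhds_unique h1 tendsto_const_nhds
    have hdu : Tendsto (fun n => D.du (D.ι x₀) (D.ι (x (ψ n)))) atTop (𝓝 0) := by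
      have h1 := (D.cu.tendsto (D.ι x₀, D.ι x₀)).comp (tendsto_const_nhds.prodMk_nhds hι)
      simp only [D.hu.self] at h1
      exact h1
    have hds : Tendsto (fun n => D.ds (D.ι x₀) (D.ι (x (ψ n)))) atTop (𝓝 0) := by
      have h1 := (D.cs.tendsto (D.ι x₀, D.ι x₀)).comp (tendsto_const_nhds.prodMk_nhds hι)
      simp only [D.hs.self] at h1
      exact h1
    rcases (D.hu.nonneg D.v (D.ι x₀)).eq_or_lt with h0 | h0
    · rcases (D.hs.nonneg D.v (D.ι x₀)).eq_or_lt with h0' | h0'
      · exact D.ne x₀ hx₀ h0.symm h0'.symm ho0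
      · obtain ⟨n, hn⟩ := (Conv.same_sign D.hs (hw'.comp_Cmp hφψ) h0' hds).exists
        exact convex_ne_Cmp (ht (ψ n)) hn (hs (ψ n))
    · obtain ⟨n, hn⟩ := (Conv.same_sign D.hu (hw.comp_Cmp hφψ) h0 hdu).exists
      exact convex_ne_Cmp (ht (ψ n)) hn (hu (ψ n))
  filter_upwards [key] with k hk
  have cA : Continuous fun q : ℝ × P =>
      (1 - q.1) * (-rho D.du (w k) D.v q.2) + q.1 * rho D.du D.v (w k) q.2 := by
    have h1 := continuous_rho D.hu D.cu (w k) D.v
    have h2 := continuous_rho D.hu D.cu D.v (w k)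
    fun_prop
  have cB : Continuous fun q : ℝ × P =>
      (1 - q.1) * (-rho D.ds (w' k) D.v q.2) + q.1 * rho D.ds D.v (w' k) q.2 := by
    have h1 := continuous_rho D.hs D.cs (w' k) D.v
    have h2 := continuous_rho D.hs D.cs D.v (w' k)
    fun_prop
  have hdeg := Deg.deg_homotopy (N := D.N) (V := D.O) D.compact D.isOpen D.sub
    (F := fun t => D.Phi
      (fun p => (1 - t) * (-rho D.du (w k) D.v p) + t * rho D.du D.v (w k) p)
      (fun p => (1 - t) * (-rho D.ds (w' k) D.v p) + t * rho D.ds D.v (w' k) p))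
    (D.continuous_Phi_Cmp
      (a := fun t p => (1 - t) * (-rho D.du (w k) D.v p) + t * rho D.du D.v (w k) p)
      (b := fun t p => (1 - t) * (-rho D.ds (w' k) D.v p) + t * rho D.ds D.v (w' k) p) cA cB)
    (fun t ht x hx h0 => by
      obtain ⟨h1, h2, h3⟩ := D.Phi_eq_zero_Cmp h0
      exact hk ⟨t, ht, x, hx, h1, h2, h3⟩)
  simp only [sub_zero, one_mul, zero_mul, add_zero, sub_self, zero_add] at hdeg
  exact hdeg

end Pool.Agent.ANO3.End
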