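import Pool.Agent.ANO3.End.Sum

/-!
# ANO3, module End: the contradiction, abstract form
-/

set_option autoImplicit false

open Set Filter Topology

namespace Pool.Agent.ANO3.End

open Pool.Agent.ANO3 Pool.Agent.ANO3.Tree

variable {P E F : Type} [TopologicalSpace P] [NormedAddCommGroup E] [NormedSpace ℝ E]
  [NormedAddCommGroup F] [NormedSpace ℝ F]

/-- A zero on `N`. -/
theorem Data.exists_zero [FiniteDimensional ℝ E] (D : Data P E F) {a b : P → ℝ}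
    (ha : Continuous a) (hb : Continuous b) (h : Deg.deg (D.Phi a b) D.N ≠ 0) :
    ∃ x ∈ D.N, a (D.ι x) = 0 ∧ b (D.ι x) = 0 ∧ D.o x = 0 := by
  have : Nontrivial E := D.nontrivial
  by_contra hne
  push Not at hne
  have key : ∀ x ∈ D.N, D.Phi a b x ≠ 0 := by
    intro x hx h0
    have h1 : ((a (D.ι x), b (D.ι x)), D.o x) = (0 : (ℝ × ℝ) × F) :=
      D.e.map_eq_zero_iff.1 h0
    have h2 := congrArg Prod.snd h1
    have h3 := congrArg (fun q => q.1.1) h1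
    have h4 := congrArg (fun q => q.1.2) h1
    exact hne x hx h3 h4 h2
  refine h (Deg.deg_zero ⟨D.compact, ⟨D.O, D.isOpen, D.sub, ?_⟩, fun x hx =>
    key x (D.compact.isClosed.frontier_subset hx)⟩ key)
  exact D.e.continuous.comp_continuousOn
    (((ha.comp_continuousOn D.cι).prodMk (hb.comp_continuousOn D.cι)).prodMk D.co)

/-- The abstract contradiction.  `R`, `R'`: the regular points (of the two trees); `Hs`: the points
of the surface. -/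
theorem Data.false [FiniteDimensional ℝ E] (D : Data P E F) (R : P → Prop) (Hs : Set P)
    (seg_u : ∀ q, 0 < D.du D.v q → ∃ w : ℕ → P, Conv D.du D.v w ∧
      ∀ k, R (w k) ∧ SameArm D.du D.v q (w k))
    (seg_s : ∀ q, 0 < D.ds D.v q → ∃ w : ℕ → P, Conv D.ds D.v w ∧
      ∀ k, R (w k) ∧ SameArm D.ds D.v q (w k))
    (conn : ∀ x ∈ D.N, ∀ y ∈ D.N, ∀ w w', R w → R w' → D.du w (D.ι x) = 0 → D.o x = 0 →
      D.ds w' (D.ι y) = 0 → D.o y = 0 → ∃ z ∈ Hs, D.du w z = 0 ∧ D.ds w' z = 0)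
    (sing : ∀ a ∈ Hs, ∀ b ∈ Hs, ∀ c ∈ Hs, ∀ e ∈ Hs, SameArm D.du D.v a b →
      SameArm D.du D.v c e → SameArm D.ds D.v a c → SameArm D.ds D.v b e →
      SameArm D.du D.v a c ∨ SameArm D.ds D.v a b)
    {w₀ w₀' : ℕ → P} (h₀ : Conv D.du D.v w₀) (h₀' : Conv D.ds D.v w₀')
    (hdeg : ∃ᶠ k in atTop, Deg.deg (D.Phi (fun x => -rho D.du (w₀ k) D.v x)
      (fun x => -rho D.ds (w₀' k) D.v x)) D.N ≠ 0) : False := by
  classical
  have cu : ∀ v p, Continuous (rho D.du v p) := continuous_rho D.hu D.cu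
  have cs : ∀ v p, Continuous (rho D.ds v p) := continuous_rho D.hs D.cs
  -- the first pair of arms
  obtain ⟨k, hk, hk'⟩ := (hdeg.and_eventually (D.cmp h₀ h₀')).exists
  rw [hk'] at hk
  obtain ⟨p, hp⟩ : ∃ p, p = w₀ k := ⟨_, rfl⟩
  obtain ⟨p', hp'⟩ : ∃ p', p' = w₀' k := ⟨_, rfl⟩
  have hpos : 0 < D.du D.v p := hp ▸ h₀.pos k
  have hpos' : 0 < D.ds D.v p' := hp' ▸ h₀'.pos k
  rw [← hp, ← hp'] at hk
  -- the second pair of arms
  obtain ⟨x, hx, hx1, hx2, hx3⟩ := D.sum_rule hk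
  rw [← D.swap_dg] at hx3
  obtain ⟨y, hy, hy1, hy2, hy3⟩ := D.swap.sum_rule hx3
  rw [D.swap_dg] at hy3
  change 0 < D.ds D.v (D.ι y) at hy1
  change ¬ SameArm D.ds D.v p' (D.ι y) at hy2
  change D.dg (D.ι x) (D.ι y) ≠ 0 at hy3
  -- zeros of exact types
  have zero : ∀ q q', 0 < D.du D.v q → 0 < D.ds D.v q' → D.dg q q' ≠ 0 →
      ∃ w w' z, R w ∧ R w' ∧ SameArm D.du D.v q w ∧ SameArm D.ds D.v q' w' ∧ z ∈ D.N ∧
        D.du w (D.ι z) = 0 ∧ D.ds w' (D.ι z) = 0 ∧ D.o z = 0 := by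
    intro q q' hq hq' hd
    obtain ⟨w, hw, hw2⟩ := seg_u q hq
    obtain ⟨w', hw', hw2'⟩ := seg_s q' hq'
    obtain ⟨j, hj⟩ := (D.cmp hw hw').exists
    have h1 : D.dg (w j) (w' j) = D.dg q q' := by
      unfold Data.dg
      rw [rho_congr D.hu (hw2 j).2, rho_congr D.hs (hw2' j).2]
    rw [h1] at hj
    rw [← hj] at hd
    obtain ⟨z, hz, hz1, hz2, hz3⟩ := D.exists_zero ((cu _ _).neg) ((cs _ _).neg) hd
    refine ⟨w j, w' j, z, (hw2 j).1, (hw2' j).1, (hw2 j).2, (hw2' j).2, hz, ?_, ?_, hz3⟩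
    · rw [← rho_eq_zero_iff D.hu _ D.v]
      exact neg_eq_zero.1 hz1
    · rw [← rho_eq_zero_iff D.hs _ D.v]
      exact neg_eq_zero.1 hz2
  obtain ⟨w1, w1', z1, r1, r1', a1, a1', hz1, u1, s1, o1⟩ := zero p p' hpos hpos' hk
  obtain ⟨w2, w2', z2, r2, r2', a2, a2', hz2, u2, s2, o2⟩ := zero _ _ hx1 hy1 hy3
  obtain ⟨a, ha, ha1, ha2⟩ := conn z1 hz1 z1 hz1 w1 w1' r1 r1' u1 o1 s1 o1
  obtain ⟨b, hb, hb1, hb2⟩ := conn z1 hz1 z2 hz2 w1 w2' r1 r2' u1 o1 s2 o2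
  obtain ⟨c, hc, hc1, hc2⟩ := conn z2 hz2 z1 hz1 w2 w1' r2 r1' u2 o2 s1 o1
  obtain ⟨e, he, he1, he2⟩ := conn z2 hz2 z2 hz2 w2 w2' r2 r2' u2 o2 s2 o2
  have A1 := sameArm_trans D.hu (sameArm_symm D.hu a1) a1
  have A2 := sameArm_trans D.hu (sameArm_symm D.hu a2) a2
  have A1' := sameArm_trans D.hs (sameArm_symm D.hs a1') a1'
  have A2' := sameArm_trans D.hs (sameArm_symm D.hs a2') a2'
  rcases sing a ha b hb c hc e he (sameArm_of_zero D.hu ha1 hb1 A1)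
    (sameArm_of_zero D.hu hc1 he1 A2) (sameArm_of_zero D.hs ha2 hc2 A1')
    (sameArm_of_zero D.hs hb2 he2 A2') with h | h
  · have h2 : SameArm D.du D.v w1 w2 :=
      sameArm_of_zero D.hu (by rw [D.hu.symm]; exact ha1) (by rw [D.hu.symm]; exact hc1) h
    exact hx2 (sameArm_trans D.hu (sameArm_trans D.hu a1 h2) (sameArm_symm D.hu a2))
  · have h2 : SameArm D.ds D.v w1' w2' :=
      sameArm_of_zero D.hs (by rw [D.hs.symm]; exact ha2) (by rw [D.hs.symm]; exact hb2) h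
    exact hy2 (sameArm_trans D.hs (sameArm_trans D.hs a1' h2) (sameArm_symm D.hs a2'))

end Pool.Agent.ANO3.End
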