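import Pool.Agent.ANO3.End.Coord
import Pool.Agent.ANO3.End.Main
import Pool.Agent.ANO3.End.Iface
import Pool.Agent.ANO3.Tot.Hom

/-!
# ANO3, module End: the contradiction at a vertex, in the product situation
-/

set_option autoImplicit false

open scoped UpperHalfPlane MatrixGroups
open Set Filter Topology

namespace Pool.Agent.ANO3.End

open Pool.Agent.ANO Pool.Agent.ANO2 Pool.Agent.ANO3 Pool.Agent.ANO3.Tree Pool.Agent.ANO3.Conn

variable {r : ℕ} {S : Fin r → SurfaceMap} {F : ∀ i, Flat (S i)} {T₀ T : X r 0 ≃ₜ X r 0}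

/-- A compact neighbourhood whose frontier avoids a countable set. -/
theorem exists_ball {Z : Type*} [MetricSpace Z] [ProperSpace Z] (b : Z) {V : Set Z}
    (hV : V ∈ 𝓝 b) {C : Set Z} (hC : C.Countable) :
    ∃ K : Set Z, IsCompact K ∧ K ⊆ V ∧ b ∈ interior K ∧ ∀ x ∈ frontier K, x ∉ C := by
  obtain ⟨ε, hε, hb⟩ := Metric.nhds_basis_closedBall.mem_iff.1 hV
  have h1 : ((fun x => dist x b) '' C).Countable := hC.image _
  obtain ⟨ρ, hρ, h2, h3⟩ := (h1.dense_compl ℝ).exists_between hε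
  refine ⟨Metric.closedBall b ρ, isCompact_closedBall b ρ,
    (Metric.closedBall_subset_closedBall h3.le).trans hb, ?_, ?_⟩
  · exact Metric.ball_subset_interior_closedBall (Metric.mem_ball_self h2)
  · intro x hx hxC
    have h4 := Metric.frontier_closedBall_subset_sphere hx
    exact hρ ⟨x, hxC, h4⟩

theorem reg_update {κ : Fin r → ℍ} {i₀ : Fin r} (hκ : ∀ i, i ≠ i₀ → (F i).Reg (κ i)) {z : ℍ}
    (hz : (F i₀).Reg z) (i : Fin r) : (F i).Reg (Function.update κ i₀ z i) := by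
  by_cases hi : i = i₀
  · subst hi
    rw [Function.update_self]
    exact hz
  · rw [Function.update_of_ne hi]
    exact hκ i hi

/-- The points over the translates of the points of the corner converge. -/
theorem exists_points (h : Setting S T₀ T) (i₀ : Fin r) {κ : Fin r → ℍ}
    (hv : κ i₀ ∉ (F i₀).U) {b₀ : ℍ} (hb : (F i₀).Corner (κ i₀) b₀)
    (hκ : ∀ i, i ≠ i₀ → (F i).Reg (κ i)) (hN : SingleNN F T) :
    ∃ (z : ℕ → ℍ) (γ : ℕ → SL(2, ℝ)) (x : ℕ → X r 0) (b : X r 0), (∀ k, (F i₀).Reg (z k)) ∧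
      (∀ k, Btw (F i₀).du (κ i₀) (z k) b₀) ∧ (∀ k, Btw (F i₀).ds (κ i₀) (z k) b₀) ∧
      Tendsto (fun k => (F i₀).du (κ i₀) (z k)) atTop (𝓝 0) ∧
      Tendsto (fun k => (F i₀).ds (κ i₀) (z k)) atTop (𝓝 0) ∧
      (∀ k, γ k ∈ (S i₀).Γ) ∧ (∀ k, (F i₀).Eqv (κ i₀) (γ k • κ i₀)) ∧
      Tendsto x atTop (𝓝 b) ∧
      ∀ k, NN F T (Function.update κ i₀ (γ k • z k)) (Function.update κ i₀ (γ k • z k)) = {x k} := by
  obtain ⟨z, hz, hzu, hzs⟩ := hb.seq
  choose q hq using fun n => hN (Function.update κ i₀ (z n)) (reg_update hκ (hz n).1)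
  obtain ⟨ε, hε, K, hK, hx⟩ := cocompact_NN (F := F) h (w' := κ) (w'' := κ) (fun i => by
    by_cases hi : i = i₀
    · subst hi
      exact Or.inr ⟨rfl, hv⟩
    · exact Or.inl (hκ i hi))
  have hmem : ∀ n, q n ∈ NN F T (Function.update κ i₀ (z n)) (Function.update κ i₀ (z n)) :=
    fun n => by
      rw [hq]
      exact mem_singleton _
  have hqε : ∀ᶠ n in atTop, ∀ i, DU F T i (Sum.inl (κ i)) (Sum.inr (q n)) ≤ ε ∧
      DS F T i (Sum.inl (κ i)) (Sum.inr (q n)) ≤ ε := by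
    filter_upwards [hzu.eventually (gt_mem_nhds hε), hzs.eventually (gt_mem_nhds hε)]
      with n h1 h2 i
    have h3 := hmem n i
    by_cases hi : i = i₀
    · subst hi
      rw [Function.update_self] at h3
      have h4 := (isTree_DU (F := F) h i).triangle (Sum.inl (κ i)) (Sum.inl (z n))
        (Sum.inr (q n))
      have h5 := (isTree_DS (F := F) h i).triangle (Sum.inl (κ i)) (Sum.inl (z n))
        (Sum.inr (q n))
      rw [DU_inl, h3.1] at h4
      rw [DS_inl, h3.2] at h5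
      exact ⟨by linarith, by linarith⟩
    · rw [Function.update_of_ne hi] at h3
      rw [h3.1, h3.2]
      exact ⟨hε.le, hε.le⟩
  obtain ⟨n₀, hn₀⟩ := eventually_atTop.1 hqε
  choose γ hγ1 hγ2 hγ3 hγ4 hγ5 using fun n : ℕ => hx (q (n + n₀)) (hn₀ (n + n₀)
    (Nat.le_add_left _ _))
  obtain ⟨b, -, φ, hφ, hlim⟩ := hK.tendsto_subseq hγ5
  have hφ' : Tendsto (fun k => φ k + n₀) atTop atTop :=
    tendsto_atTop_mono (fun k => Nat.le_add_right _ _) hφ.tendsto_atTop
  refine ⟨fun k => z (φ k + n₀), fun k => γ (φ k) i₀,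
    fun k => dk (γ (φ k)) (fun j => j.elim0) (q (φ k + n₀)), b, fun k => (hz _).1,
    fun k => (hz _).2.1, fun k => (hz _).2.2, hzu.comp hφ', hzs.comp hφ', fun k => hγ1 _ _,
    fun k => hγ3 _ _, hlim, fun k => ?_⟩
  obtain ⟨q', hq'⟩ := hN (Function.update κ i₀ (γ (φ k) i₀ • z (φ k + n₀)))
    (reg_update hκ ((hz _).1.smul (hγ1 _ _)))
  have h6 := (mem_NN_dk (F := F) h (hγ1 (φ k)) (fun j => j.elim0) _ _ _).2 (hmem (φ k + n₀))
  have e : (fun i => γ (φ k) i • Function.update κ i₀ (z (φ k + n₀)) i) =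
      Function.update κ i₀ (γ (φ k) i₀ • z (φ k + n₀)) := by
    funext i
    by_cases hi : i = i₀
    · subst hi
      rw [Function.update_self, Function.update_self]
    · rw [Function.update_of_ne hi, Function.update_of_ne hi, hγ2 _ _ (hκ i hi), one_smul]
  rw [e, hq'] at h6
  rw [hq']
  exact congrArg _ (mem_singleton_iff.1 h6).symm

/-- The contradiction at a vertex. -/
theorem concrete (h : Setting S T₀ T) (i₀ : Fin r) {κ : Fin r → ℍ}
    (hv : κ i₀ ∉ (F i₀).U) {b₀ : ℍ} (hb : (F i₀).Corner (κ i₀) b₀)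
    (hs : IsSingular (F i₀).du (F i₀).ds (κ i₀))
    (hκ : ∀ i, i ≠ i₀ → (F i).Reg (κ i)) (hN : SingleNN F T) (hC : CountableNN F T)
    (hB : HasBracket F T) (h1 : TotSelf F T)
    (hm : ∀ w' w'' : Fin r → ℍ, (∀ i, (F i).Reg (w' i)) → (∀ i, (F i).Reg (w'' i)) →
      (NN F T w' w'').Nonempty → ∀ i, ∃ z, (F i).du (w' i) z = 0 ∧ (F i).ds (w'' i) z = 0) :
    False := by
  have : Nonempty (Fin r) := ⟨i₀⟩
  have : Nontrivial (A r × A r) := inferInstance
  obtain ⟨z, γ, x, b, hz, hzu, hzs, hlu, hls, hγ, hγv, hx, hxN⟩ :=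
    exists_points h i₀ hv hb hκ hN
  obtain ⟨V, hV, hbr⟩ := hB b
  have hty : IsType F κ := fun i => by
    by_cases hi : i = i₀
    · subst hi
      exact Or.inr hv
    · exact Or.inl (hκ i hi)
  obtain ⟨K, hK, hKV, hbK, hne⟩ := exists_ball b hV (hC κ hty)
  have fA : Module.finrank ℝ (E r 0) = Module.finrank ℝ (A r × A r) := by
    rw [ANO2.Dim.finrank_E, Module.finrank_prod, Module.finrank_fintype_fun_eq_card,
      Fintype.card_fin]
    omega
  have C₀ : E r 0 ≃L[ℝ] A r × A r := ContinuousLinearEquiv.ofFinrankEq fA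
  obtain ⟨D, hD⟩ : ∃ D, D = mkData h i₀ hκ C₀ hK hne := ⟨_, rfl⟩
  have hpos : ∀ k, 0 < (F i₀).du (γ k • z k) (κ i₀) ∧ 0 < (F i₀).ds (γ k • z k) (κ i₀) :=
    fun k => ⟨((hz k).smul (hγ k)).pos_u hv, ((hz k).smul (hγ k)).pos_s hv⟩
  refine D.false (IsReg F i₀) (range Sum.inl) ?_ ?_ ?_ ?_
    (w₀ := fun k => Sum.inl (γ k • z k)) (w₀' := fun k => Sum.inl (γ k • z k)) ?_ ?_ ?_
  · rw [hD]
    exact fun q hq => exists_seg_u h i₀ q hq
  · rw [hD]
    exact fun q hq => exists_seg_s h i₀ q hq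
  · rw [hD]
    rintro _ ⟨x', hx', rfl⟩ _ ⟨y', hy', rfl⟩ _ _ ⟨z1, rfl, hz1⟩ ⟨z2, rfl, hz2⟩ e1 o1 e2 o2
    obtain ⟨p, hp⟩ := hbr x' (hKV hx') y' (hKV hy')
    change DU F T i₀ (Sum.inl z1) (Sum.inr (ofE (C₀.symm (C₀ (toE x'))))) = 0 at e1
    change oth F T i₀ κ (ofE (C₀.symm (C₀ (toE x')))) = 0 at o1
    change DS F T i₀ (Sum.inl z2) (Sum.inr (ofE (C₀.symm (C₀ (toE y'))))) = 0 at e2
    change oth F T i₀ κ (ofE (C₀.symm (C₀ (toE y')))) = 0 at o2
    rw [ContinuousLinearEquiv.symm_apply_apply, ANO.Idx.ofE_toE] at e1 o1 e2 o2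
    have key : p ∈ NN F T (Function.update κ i₀ z1) (Function.update κ i₀ z2) := by
      intro i
      have t1 := (isTree_DU (F := F) h i).triangle (Sum.inl (Function.update κ i₀ z1 i))
        (Sum.inr x') (Sum.inr p)
      have t2 := (isTree_DS (F := F) h i).triangle (Sum.inl (Function.update κ i₀ z2 i))
        (Sum.inr y') (Sum.inr p)
      have n1 := (isTree_DU (F := F) h i).nonneg (Sum.inl (Function.update κ i₀ z1 i))
        (Sum.inr p)
      have n2 := (isTree_DS (F := F) h i).nonneg (Sum.inl (Function.update κ i₀ z2 i))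
        (Sum.inr p)
      rw [(hp i).1] at t1
      rw [(hp i).2] at t2
      by_cases hi : i = i₀
      · subst hi
        rw [Function.update_self] at t1 t2 n1 n2 ⊢
        rw [Function.update_self]
        rw [e1] at t1
        rw [e2] at t2
        exact ⟨by linarith, by linarith⟩
      · rw [Function.update_of_ne hi] at t1 t2 n1 n2 ⊢
        rw [Function.update_of_ne hi]
        rw [(oth_eq_zero h i₀ hκ o1 i hi).1] at t1
        rw [(oth_eq_zero h i₀ hκ o2 i hi).2] at t2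
        exact ⟨by linarith, by linarith⟩
    obtain ⟨a, ha, ha'⟩ := hm _ _ (reg_update hκ hz1) (reg_update hκ hz2) ⟨p, key⟩ i₀
    rw [Function.update_self] at ha ha'
    exact ⟨Sum.inl a, ⟨a, rfl⟩, (DU_inl (F := F) i₀ z1 a).trans ha,
      (DS_inl (F := F) i₀ z2 a).trans ha'⟩
  · rw [hD]
    rintro _ ⟨a, rfl⟩ _ ⟨c, rfl⟩ _ ⟨d, rfl⟩ _ ⟨e, rfl⟩ s1 s2 s3 s4
    have ku : ∀ a b, SameArm (DU F T i₀) (Sum.inl (κ i₀)) (Sum.inl a) (Sum.inl b) ↔
        SameArm (F i₀).du (κ i₀) a b := fun a b => by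
      unfold SameArm
      rw [DU_inl, DU_inl, DU_inl]
    have ks : ∀ a b, SameArm (DS F T i₀) (Sum.inl (κ i₀)) (Sum.inl a) (Sum.inl b) ↔
        SameArm (F i₀).ds (κ i₀) a b := fun a b => by
      unfold SameArm
      rw [DS_inl, DS_inl, DS_inl]
    exact (hs a c d e ((ku _ _).1 s1) ((ku _ _).1 s2) ((ks _ _).1 s3) ((ks _ _).1 s4)).imp
      (ku _ _).2 (ks _ _).2
  · rw [hD]
    exact conv_corner_u h i₀ hv hb hz hzu hlu hγ hγv
  · rw [hD]
    exact conv_corner_s h i₀ hv hb hz hzs hls hγ hγv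
  · refine Eventually.frequently ?_
    filter_upwards [hx.eventually (isOpen_interior.mem_nhds hbK)] with k hk
    have hreg := reg_update hκ ((hz k).smul (hγ k))
    obtain ⟨Θ, hΘ⟩ := mkData_Phi h i₀ hκ C₀ hK hne ((hz k).smul (hγ k)) (hpos k).1 (hpos k).2
    have h2 := Tot.degX_eq_of_total (h1 r r C₀ Θ _ hreg) (K := K) ?_ hK ?_
    · rw [hD]
      intro h3
      have h4 : degX C₀ (fun x => Θ (aa F T (Function.update κ i₀ (γ k • z k)) x,
          bb F T (Function.update κ i₀ (γ k • z k)) x)) K = 0 := by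
        unfold degX
        rw [← hΘ]
        exact h3
      rw [h4] at h2
      exact zero_ne_one h2
    · exact Θ.continuous.comp ((continuous_pi fun i => continuous_su h (hreg i)).prodMk
        (continuous_pi fun i => continuous_ss h (hreg i)))
    · intro y hy
      have h5 : (aa F T (Function.update κ i₀ (γ k • z k)) y,
          bb F T (Function.update κ i₀ (γ k • z k)) y) = 0 := Θ.map_eq_zero_iff.1 hy
      have h6 : y ∈ NN F T (Function.update κ i₀ (γ k • z k))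
          (Function.update κ i₀ (γ k • z k)) :=
        (mem_NN_iff h hreg hreg).2 ⟨congrArg Prod.fst h5, congrArg Prod.snd h5⟩
      rw [hxN k] at h6
      rw [mem_singleton_iff.1 h6]
      exact hk

end Pool.Agent.ANO3.End
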