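import Pool.Agent.ANO3.End.Seg
import Pool.Agent.ANO3.Conn.DegX

/-!
# ANO3, module End: the data of the local argument in the product situation
-/

set_option autoImplicit false

open scoped UpperHalfPlane MatrixGroups
open Set Filter Topology

namespace Pool.Agent.ANO3.End

open Pool.Agent.ANO Pool.Agent.ANO2 Pool.Agent.ANO3 Pool.Agent.ANO3.Tree Pool.Agent.ANO3.Conn

variable {r : ℕ}

/-- the other indices -/
abbrev Oth (i₀ : Fin r) : Type := {j : Fin r // j ≠ i₀}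

/-- one coordinate and the others -/
noncomputable def splitL (i₀ : Fin r) : (Fin r → ℝ) ≃ₗ[ℝ] ℝ × (Oth i₀ → ℝ) :=
  { Equiv.funSplitAt i₀ ℝ with
    map_add' := fun _ _ => rfl
    map_smul' := fun _ _ => rfl }

theorem splitL_symm_self (i₀ : Fin r) (a : ℝ) (o : Oth i₀ → ℝ) :
    (splitL i₀).symm (a, o) i₀ = a := by
  have h := (splitL i₀).apply_symm_apply (a, o)
  exact congrArg Prod.fst h

theorem splitL_symm_of_ne (i₀ : Fin r) (a : ℝ) (o : Oth i₀ → ℝ) (j : Oth i₀) :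
    (splitL i₀).symm (a, o) j.1 = o j := by
  have h := (splitL i₀).apply_symm_apply (a, o)
  exact congrFun (congrArg Prod.snd h) j

/-- the coordinates of the target -/
noncomputable def eL (i₀ : Fin r) :
    ((ℝ × ℝ) × ((Oth i₀ → ℝ) × (Oth i₀ → ℝ))) ≃L[ℝ] A r × A r :=
  ((LinearEquiv.prodProdProdComm ℝ ℝ ℝ (Oth i₀ → ℝ) (Oth i₀ → ℝ)).trans
    ((splitL i₀).symm.prodCongr (splitL i₀).symm)).toContinuousLinearEquiv

theorem eL_apply (i₀ : Fin r) (a b : ℝ) (o o' : Oth i₀ → ℝ) :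
    eL i₀ ((a, b), (o, o')) = ((splitL i₀).symm (a, o), (splitL i₀).symm (b, o')) := rfl

/-- change of the sign of one coordinate -/
noncomputable def sgnL (i₀ : Fin r) (ε : ℝˣ) : A r ≃L[ℝ] A r :=
  ContinuousLinearEquiv.piCongrRight fun i =>
    ContinuousLinearEquiv.unitsEquivAut ℝ (if i = i₀ then ε else 1)

theorem sgnL_self (i₀ : Fin r) (ε : ℝˣ) (a : A r) : sgnL i₀ ε a i₀ = a i₀ * ε := by
  simp [sgnL]

theorem sgnL_of_ne (i₀ : Fin r) (ε : ℝˣ) (a : A r) {i : Fin r} (hi : i ≠ i₀) :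
    sgnL i₀ ε a i = a i := by
  simp [sgnL, hi]

variable {S : Fin r → SurfaceMap} {F : ∀ i, Flat (S i)} {T₀ T : X r 0 ≃ₜ X r 0}

/-- the coordinates of the other factors -/
noncomputable def oth (F : ∀ i, Flat (S i)) (T : X r 0 ≃ₜ X r 0) (i₀ : Fin r) (w : Fin r → ℍ)
    (x : X r 0) : (Oth i₀ → ℝ) × (Oth i₀ → ℝ) :=
  (fun j => su F T j.1 (w j.1) x, fun j => ss F T j.1 (w j.1) x)

theorem continuous_oth (h : Setting S T₀ T) (i₀ : Fin r) {w : Fin r → ℍ}
    (hw : ∀ i, i ≠ i₀ → (F i).Reg (w i)) : Continuous (oth F T i₀ w) :=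
  (continuous_pi fun j => continuous_su h (hw j.1 j.2)).prodMk
    (continuous_pi fun j => continuous_ss h (hw j.1 j.2))

theorem oth_eq_zero (h : Setting S T₀ T) (i₀ : Fin r) {w : Fin r → ℍ}
    (hw : ∀ i, i ≠ i₀ → (F i).Reg (w i)) {x : X r 0} (hx : oth F T i₀ w x = 0) (i : Fin r)
    (hi : i ≠ i₀) : DU F T i (Sum.inl (w i)) (Sum.inr x) = 0 ∧
      DS F T i (Sum.inl (w i)) (Sum.inr x) = 0 := by
  have h1 : su F T i (w i) x = 0 := congrFun (congrArg Prod.fst hx) ⟨i, hi⟩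
  have h2 : ss F T i (w i) x = 0 := congrFun (congrArg Prod.snd hx) ⟨i, hi⟩
  rw [← abs_su h (hw i hi), ← abs_ss h (hw i hi), h1, h2]
  exact ⟨abs_zero, abs_zero⟩

/-- The data. -/
noncomputable def mkData [Nontrivial (A r × A r)] (h : Setting S T₀ T) (i₀ : Fin r) {w : Fin r → ℍ}
    (hw : ∀ i, i ≠ i₀ → (F i).Reg (w i)) (C₀ : E r 0 ≃L[ℝ] A r × A r) {K : Set (X r 0)}
    (hK : IsCompact K) (hne : ∀ x ∈ frontier K, x ∉ NN F T w w) :
    Data (ℍ ⊕ X r 0) (A r × A r) ((Oth i₀ → ℝ) × (Oth i₀ → ℝ)) where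
  du := DU F T i₀
  ds := DS F T i₀
  hu := isTree_DU h i₀
  hs := isTree_DS h i₀
  cu := continuous_DU h i₀
  cs := continuous_DS h i₀
  v := Sum.inl (w i₀)
  O := C₀ '' dom r 0
  isOpen := Conn.isOpen_range C₀
  ι := fun z => Sum.inr (ofE (C₀.symm z))
  cι := by
    refine continuous_inr.comp_continuousOn (ANO.Idx.continuousOn_ofE.comp
      C₀.symm.continuous.continuousOn ?_)
    rintro z ⟨x, hx, rfl⟩
    rw [ContinuousLinearEquiv.symm_apply_apply]
    exact hx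
  o := fun z => oth F T i₀ w (ofE (C₀.symm z))
  co := by
    refine (continuous_oth h i₀ hw).comp_continuousOn (ANO.Idx.continuousOn_ofE.comp
      C₀.symm.continuous.continuousOn ?_)
    rintro z ⟨x, hx, rfl⟩
    rw [ContinuousLinearEquiv.symm_apply_apply]
    exact hx
  e := eL i₀
  N := hatS C₀ K
  compact := Conn.hatS_compact C₀ hK
  sub := by
    rintro z ⟨x, -, rfl⟩
    exact ⟨toE x, ANO.Idx.toE_mem x, rfl⟩
  ne := by
    rw [Conn.frontier_hatS C₀ hK]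
    rintro z ⟨x, hx, rfl⟩ h1 h2 h3
    simp only [ContinuousLinearEquiv.symm_apply_apply, ANO.Idx.ofE_toE] at h1 h2 h3
    refine hne x hx fun i => ?_
    by_cases hi : i = i₀
    · rw [hi]
      exact ⟨h1, h2⟩
    · exact oth_eq_zero h i₀ hw h3 i hi

/-- The maps of the local argument at a regular point of the factor `i₀` are the maps of the module
Conn, up to signs. -/
theorem mkData_Phi [Nontrivial (A r × A r)] (h : Setting S T₀ T) (i₀ : Fin r) {w : Fin r → ℍ}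
    (hw : ∀ i, i ≠ i₀ → (F i).Reg (w i)) (C₀ : E r 0 ≃L[ℝ] A r × A r) {K : Set (X r 0)}
    (hK : IsCompact K) (hne : ∀ x ∈ frontier K, x ∉ NN F T w w) {z : ℍ}
    (hz : (F i₀).Reg z) (hu : 0 < (F i₀).du z (w i₀)) (hs : 0 < (F i₀).ds z (w i₀)) :
    ∃ Θ : (A r × A r) ≃L[ℝ] A r × A r,
      (mkData h i₀ hw C₀ hK hne).Phi
          (fun x => -rho (DU F T i₀) (Sum.inl z) (Sum.inl (w i₀)) x)
          (fun x => -rho (DS F T i₀) (Sum.inl z) (Sum.inl (w i₀)) x) =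
        hat C₀ (fun x => Θ (aa F T (Function.update w i₀ z) x,
          bb F T (Function.update w i₀ z) x)) := by
  obtain ⟨ε, hε, h1⟩ := rho_eq_su h i₀ hz hu
  obtain ⟨ε', hε', h2⟩ := rho_eq_ss h i₀ hz hs
  have hunit : ∀ a : ℝ, (a = 1 ∨ a = -1) → ∃ u : ℝˣ, (u : ℝ) = a := by
    rintro a (rfl | rfl)
    · exact ⟨1, rfl⟩
    · exact ⟨-1, by simp⟩
  obtain ⟨u, hu1⟩ := hunit ε hε
  obtain ⟨u', hu1'⟩ := hunit ε' hε'
  refine ⟨(sgnL i₀ u).prodCongr (sgnL i₀ u'), ?_⟩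
  funext y
  obtain ⟨x, hx⟩ : ∃ x : X r 0, x = ofE (C₀.symm y) := ⟨_, rfl⟩
  change eL i₀ ((-rho (DU F T i₀) (Sum.inl z) (Sum.inl (w i₀)) (Sum.inr (ofE (C₀.symm y))),
    -rho (DS F T i₀) (Sum.inl z) (Sum.inl (w i₀)) (Sum.inr (ofE (C₀.symm y)))),
    oth F T i₀ w (ofE (C₀.symm y))) = (sgnL i₀ u (aa F T _ (ofE (C₀.symm y))),
      sgnL i₀ u' (bb F T _ (ofE (C₀.symm y))))
  rw [← hx, h1, h2, oth, eL_apply]
  refine Prod.ext (funext fun i => ?_) (funext fun i => ?_) <;> dsimp only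
  · by_cases hi : i = i₀
    · subst hi
      rw [splitL_symm_self, sgnL_self, hu1, aa, Function.update_self, mul_comm]
    · have h3 := splitL_symm_of_ne i₀ (ε * su F T i₀ z x) (fun j => su F T j.1 (w j.1) x) ⟨i, hi⟩
      rw [sgnL_of_ne _ _ _ hi, aa, Function.update_of_ne hi]
      exact h3
  · by_cases hi : i = i₀
    · subst hi
      rw [splitL_symm_self, sgnL_self, hu1', bb, Function.update_self, mul_comm]
    · have h3 := splitL_symm_of_ne i₀ (ε' * ss F T i₀ z x) (fun j => ss F T j.1 (w j.1) x) ⟨i, hi⟩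
      rw [sgnL_of_ne _ _ _ hi, bb, Function.update_of_ne hi]
      exact h3

end Pool.Agent.ANO3.End
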