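import Pool.Agent.ANO3.Deg.Basic
import Pool.Agent.ANO3.Tree.Basic
import Pool.Agent.ANO3.Defs

/-!
# ANO3, module End: the local argument at a vertex (definitions)

Section 8 of `/team-store/ANO3_Blueprint.md`, abstract part.  `P` carries two pseudo-distances
`du`, `ds` of trees, `v : P` is the vertex, `E` is the vector space which contains `X` (as the open
set `O`), `ι : E → P` the point of the trees which belongs to `x`, `o x` the coordinates of the other
factors, `N` a compact neighbourhood such that on its frontier the type is not `(v, ..)`.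
-/

set_option autoImplicit false

open Set Filter Topology

namespace Pool.Agent.ANO3.End

open Pool.Agent.ANO3 Pool.Agent.ANO3.Tree

variable {P : Type}

open Classical in
/-- The signed distance from `v`: positive on the arm of `p`, negative on the other arms. -/
noncomputable def rho (d : P → P → ℝ) (v p x : P) : ℝ :=
  if SameArm d v p x then d v x else -d v x

/-- The data of the local argument. -/
structure Data (P E F : Type) [TopologicalSpace P] [NormedAddCommGroup E] [NormedSpace ℝ E]
    [NormedAddCommGroup F] [NormedSpace ℝ F] where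
  du : P → P → ℝ
  ds : P → P → ℝ
  hu : IsTree du
  hs : IsTree ds
  cu : Continuous fun p : P × P => du p.1 p.2
  cs : Continuous fun p : P × P => ds p.1 p.2
  v : P
  O : Set E
  isOpen : IsOpen O
  ι : E → P
  cι : ContinuousOn ι O
  o : E → F
  co : ContinuousOn o O
  e : ((ℝ × ℝ) × F) ≃L[ℝ] E
  N : Set E
  compact : IsCompact N
  sub : N ⊆ O
  ne : ∀ x ∈ frontier N, du v (ι x) = 0 → ds v (ι x) = 0 → o x ≠ 0

namespace Data

variable {E F : Type} [TopologicalSpace P] [NormedAddCommGroup E] [NormedSpace ℝ E]
  [NormedAddCommGroup F] [NormedSpace ℝ F]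

theorem nontrivial (D : Data P E F) : Nontrivial E :=
  ⟨0, D.e ((1, 0), 0), fun h => by
    have h1 : ((1 : ℝ), (0 : ℝ), (0 : F)).1 = 0 := by
      have h2 := D.e.map_eq_zero_iff.1 h.symm
      exact congrArg (fun q => q.1.1) h2
    exact one_ne_zero h1⟩

/-- The map with the first two coordinates `a`, `b`. -/
def Phi (D : Data P E F) (a b : P → ℝ) (x : E) : E := D.e ((a (D.ι x), b (D.ι x)), D.o x)

/-- The degree which belongs to the arm of `p` in the first tree and the arm of `p'` in the second
tree. -/
noncomputable def dg (D : Data P E F) (p p' : P) : ℤ :=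
  Deg.deg (D.Phi (rho D.du D.v p) (rho D.ds D.v p')) D.N

/-- The data with the two trees exchanged. -/
def swap (D : Data P E F) : Data P E F where
  du := D.ds
  ds := D.du
  hu := D.hs
  hs := D.hu
  cu := D.cs
  cs := D.cu
  v := D.v
  O := D.O
  isOpen := D.isOpen
  ι := D.ι
  cι := D.cι
  o := D.o
  co := D.co
  e := ((ContinuousLinearEquiv.prodComm ℝ ℝ ℝ).prodCongr
    (ContinuousLinearEquiv.refl ℝ F)).trans D.e
  N := D.N
  compact := D.compact
  sub := D.sub
  ne := fun x hx h1 h2 => D.ne x hx h2 h1

theorem swap_Phi (D : Data P E F) (a b : P → ℝ) : D.swap.Phi a b = D.Phi b a := rfl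

theorem swap_dg (D : Data P E F) (p p' : P) : D.swap.dg p p' = D.dg p' p := rfl

end Data

/-- The points `w k` converge to `v` in the tree, along the initial segments of the arms. -/
structure Conv (d : P → P → ℝ) (v : P) (w : ℕ → P) : Prop where
  pos : ∀ k, 0 < d v (w k)
  lim : Tendsto (fun k => d v (w k)) atTop (𝓝 0)
  btw : ∀ p, 0 < d v p → ∀ᶠ k in atTop, SameArm d v p (w k) → Btw d v (w k) p

end Pool.Agent.ANO3.End
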