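import Pool.Agent.ANO3.End.Defs

/-!
# ANO3, module End: the arm functions (package END-RHO)

`SameArm d v a b ↔ 0 < gp d v a b` and `Btw d v w x ↔ gp d w v x = 0` (`Tree.gp`), so everything
follows from `Tree.gp_trans`, `gp_nonneg`, `gp_comm`, `gp_le_left`, `IsTree.abs_sub_le`.
`continuous_rho`: if `d v x = 0` then `|rho| = d v ·` is small near `x`; if `d v x > 0` then for `y`
near `x` we have `d x y < d v x`, so `SameArm d v x y` (`sameArm_of_lt`) and
`SameArm d v p x ↔ SameArm d v p y`.
-/

set_option autoImplicit false

open Set Filter Topology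

namespace Pool.Agent.ANO3.End

open Pool.Agent.ANO3 Pool.Agent.ANO3.Tree

variable {P : Type} {d : P → P → ℝ}

theorem sameArm_iff {v a b : P} : SameArm d v a b ↔ 0 < gp d v a b := by
  unfold SameArm gp
  constructor <;> intro h <;> linarith

theorem btw_iff (h : IsTree d) {v w x : P} : Btw d v w x ↔ gp d w v x = 0 := by
  unfold Btw gp
  rw [h.symm v w]
  constructor <;> intro h <;> linarith

theorem sameArm_symm (h : IsTree d) {v a b : P} (hab : SameArm d v a b) : SameArm d v b a := by
  rw [sameArm_iff] at hab ⊢
  rwa [gp_comm h]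

theorem sameArm_trans (h : IsTree d) {v a b c : P} (hab : SameArm d v a b)
    (hbc : SameArm d v b c) : SameArm d v a c := by
  rw [sameArm_iff] at hab hbc ⊢
  exact lt_of_lt_of_le (lt_min hab hbc) (gp_trans h v a b c)

theorem sameArm_pos (h : IsTree d) {v a b : P} (hab : SameArm d v a b) : 0 < d v a := by
  unfold SameArm at hab
  have h1 := h.triangle v a b
  have h2 := h.triangle v b a
  rw [h.symm b a] at h2
  have h3 := h.nonneg v b
  linarith

theorem sameArm_refl (h : IsTree d) {v a : P} (ha : 0 < d v a) : SameArm d v a a := by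
  unfold SameArm
  rw [h.self]
  linarith

theorem sameArm_of_lt (h : IsTree d) {v a b : P} (hab : d a b < d v a) : SameArm d v a b := by
  unfold SameArm
  have := h.nonneg v b
  linarith

theorem sameArm_of_zero (h : IsTree d) {v a a' b b' : P} (ha : d a a' = 0) (hb : d b b' = 0)
    (hab : SameArm d v a b) : SameArm d v a' b' := by
  unfold SameArm at hab ⊢
  rw [h.congr_left ha, h.symm v a, h.congr_left ha, h.symm v b, h.congr_left hb,
    h.symm a' b, h.congr_left hb, h.symm b' a', h.symm a' v, h.symm b' v] at hab
  exact hab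

/-- `w` is between `v` and `x`: the arm of `w` is the arm of `x`. -/
theorem btw_sameArm (h : IsTree d) {v w x : P} (hw : 0 < d v w) (hb : Btw d v w x) :
    SameArm d v w x := by
  unfold Btw at hb
  unfold SameArm
  linarith

/-- Beyond `w` stays beyond `w`: `x'` has a long common segment with `x`. -/
theorem btw_of_near (h : IsTree d) {v w x x' : P} (hb : Btw d v w x)
    (hx : d v w + d x x' ≤ d v x) : Btw d v w x' := by
  unfold Btw at hb ⊢
  -- four point condition for `w x'` against `v x`
  have h1 := h.tree v x w x'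
  have h2 := h.triangle v w x'
  have h3 := h.symm x w
  rcases le_max_iff.mp h1 with h4 | h4
  · have h5 : d v x' ≤ d v x + d x x' := h.triangle v x x'
    have h6 : d v x ≤ d v x' + d x x' := by
      have := h.triangle v x' x
      rwa [h.symm x' x] at this
    linarith
  · linarith

theorem abs_rho (h : IsTree d) (v p x : P) : |rho d v p x| = d v x := by
  unfold rho
  split_ifs
  · exact abs_of_nonneg (h.nonneg v x)
  · rw [abs_neg]
    exact abs_of_nonneg (h.nonneg v x)

theorem rho_eq_zero_iff (h : IsTree d) (v p x : P) : rho d v p x = 0 ↔ d v x = 0 := by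
  rw [← abs_eq_zero, abs_rho h]

theorem rho_congr (h : IsTree d) {v p q : P} (hpq : SameArm d v p q) :
    rho d v p = rho d v q := by
  funext x
  have h1 : SameArm d v p x ↔ SameArm d v q x :=
    ⟨fun h2 => sameArm_trans h (sameArm_symm h hpq) h2, fun h2 => sameArm_trans h hpq h2⟩
  by_cases h2 : SameArm d v p x
  · unfold rho
    rw [if_pos h2, if_pos (h1.1 h2)]
  · unfold rho
    rw [if_neg h2, if_neg fun h3 => h2 (h1.2 h3)]

theorem rho_pos_iff (h : IsTree d) (v p x : P) : 0 < rho d v p x ↔ SameArm d v p x := by
  unfold rho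
  split_ifs with h1
  · exact ⟨fun _ => h1, fun _ => sameArm_pos h (sameArm_symm h h1)⟩
  · refine ⟨fun h2 => ?_, fun h2 => absurd h2 h1⟩
    have := h.nonneg v x
    linarith

theorem rho_neg_iff (h : IsTree d) (v p x : P) :
    rho d v p x < 0 ↔ 0 < d v x ∧ ¬ SameArm d v p x := by
  unfold rho
  split_ifs with h1
  · refine ⟨fun h2 => ?_, fun h2 => absurd h1 h2.2⟩
    have := h.nonneg v x
    linarith
  · exact ⟨fun h2 => ⟨by linarith, h1⟩, fun h2 => by linarith [h2.1]⟩

theorem btw_iff_not_sameArm (h : IsTree d) {v w x : P} : Btw d v w x ↔ ¬ SameArm d w v x := by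
  rw [btw_iff h, sameArm_iff, not_lt]
  exact ⟨fun h1 => h1.le, fun h1 => le_antisymm h1 (gp_nonneg h _ _ _)⟩

/-- The function `-rho d w v` is positive beyond `w` (seen from `v`). -/
theorem neg_rho_pos_iff (h : IsTree d) (v w x : P) :
    0 < -rho d w v x ↔ 0 < d w x ∧ Btw d v w x := by
  rw [neg_pos, rho_neg_iff h, btw_iff_not_sameArm h]

theorem neg_rho_neg_iff (h : IsTree d) (v w x : P) :
    -rho d w v x < 0 ↔ ¬ Btw d v w x := by
  rw [neg_lt_zero, rho_pos_iff h, btw_iff_not_sameArm h, not_not]

theorem continuous_rho [TopologicalSpace P] (h : IsTree d)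
    (hc : Continuous fun p : P × P => d p.1 p.2) (v p : P) : Continuous (rho d v p) := by
  have hv : Continuous fun x => d v x := hc.comp (continuous_const.prodMk continuous_id)
  rw [continuous_iff_continuousAt]
  intro x
  rcases (h.nonneg v x).eq_or_lt with h0 | h0
  · have h1 : rho d v p x = 0 := (rho_eq_zero_iff h v p x).2 h0.symm
    unfold ContinuousAt
    rw [h1, tendsto_zero_iff_abs_tendsto_zero]
    have h2 : (fun y => |rho d v p y|) = fun y => d v y := by
      funext y
      exact abs_rho h v p y
    change Tendsto (fun y => |rho d v p y|) (𝓝 x) (𝓝 0)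
    rw [h2, h0]
    exact hv.continuousAt
  · have hx : Continuous fun y => d x y := hc.comp (continuous_const.prodMk continuous_id)
    have h1 : ∀ᶠ y in 𝓝 x, d x y < d v x := by
      refine hx.continuousAt.eventually_lt continuousAt_const ?_
      rw [h.self]
      exact h0
    by_cases h2 : SameArm d v p x
    · refine (hv.continuousAt (x := x)).congr ?_
      filter_upwards [h1] with y hy
      unfold rho
      rw [if_pos (sameArm_trans h h2 (sameArm_of_lt h hy))]
    · refine (hv.neg.continuousAt (x := x)).congr ?_
      filter_upwards [h1] with y hy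
      have h3 : ¬ SameArm d v p y := fun h3 =>
        h2 (sameArm_trans h h3 (sameArm_symm h (sameArm_of_lt h hy)))
      unfold rho
      rw [if_neg h3]
      rfl

end Pool.Agent.ANO3.End
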