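import Pool.Agent.ANO3.End.Iface
import Pool.Agent.ANO3.End.Main
import Pool.Agent.ANO3.Surf.Sep
import Pool.Agent.ANO3.Surf.Vertex

/-!
# ANO3, module End: segments, the corner and the signed distances
-/

set_option autoImplicit false

open scoped UpperHalfPlane MatrixGroups
open Set Filter Topology

namespace Pool.Agent.ANO3.End

open Pool.Agent.ANO Pool.Agent.ANO2 Pool.Agent.ANO3 Pool.Agent.ANO3.Tree

/-- Points on a segment which converge to its end point. -/
theorem conv_of_segment {P : Type} {d : P → P → ℝ} (h : IsTree d) {v q : P} {w : ℕ → P}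
    (hpos : ∀ k, 0 < d v (w k)) (hlim : Tendsto (fun k => d v (w k)) atTop (𝓝 0))
    (hb : ∀ k, Btw d v (w k) q) : Conv d v w := by
  refine ⟨hpos, hlim, fun p hp => ?_⟩
  by_cases hpq : SameArm d v p q
  · have hg : 0 < gp d v q p := by
      rw [← sameArm_iff]
      exact sameArm_symm h hpq
    have h1 : ∀ᶠ k in atTop, d v (w k) < gp d v q p / 2 :=
      hlim.eventually (gt_mem_nhds (half_pos hg))
    filter_upwards [h1] with k hk _
    have h2 : gp d v (w k) q = 2 * d v (w k) := by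
      have := hb k
      unfold Btw at this
      unfold gp
      linarith
    have h3 := gp_trans h v (w k) q p
    rw [h2, min_eq_left (by linarith)] at h3
    unfold gp at h3
    have h4 := h.triangle v (w k) p
    unfold Btw
    linarith
  · refine Eventually.of_forall fun k hk => absurd ?_ hpq
    exact sameArm_trans h hk (btw_sameArm h (hpos k) (hb k))

variable {r : ℕ} {S : Fin r → SurfaceMap} {F : ∀ i, Flat (S i)} {T₀ T : X r 0 ≃ₜ X r 0}

/-- a regular point of the surface, as a point of the tree -/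
def IsReg (F : ∀ i, Flat (S i)) (i : Fin r) (p : ℍ ⊕ X r 0) : Prop :=
  ∃ z, p = Sum.inl z ∧ (F i).Reg z

theorem exists_seg_u (h : Setting S T₀ T) (i : Fin r) {v : ℍ} (q : ℍ ⊕ X r 0)
    (hq : 0 < DU F T i (Sum.inl v) q) : ∃ w : ℕ → ℍ ⊕ X r 0,
      Conv (DU F T i) (Sum.inl v) w ∧
        ∀ k, IsReg F i (w k) ∧ SameArm (DU F T i) (Sum.inl v) q (w k) := by
  have ht := isTree_DU (F := F) h i
  obtain ⟨z, hz⟩ := DU_near (F := F) h i q hq
  rw [ht.symm] at hz
  have hqz : SameArm (DU F T i) (Sum.inl v) q (Sum.inl z) := sameArm_of_lt ht hz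
  have hvz : 0 < DU F T i (Sum.inl v) (Sum.inl z) := sameArm_pos ht (sameArm_symm ht hqz)
  have hvz' : 0 < (F i).du v z := by
    rw [← DU_inl (F := F) (T := T)]
    exact hvz
  have key : ∀ k : ℕ, ∃ w, (F i).Reg w ∧ Btw (F i).du v w z ∧ 0 < (F i).du v w ∧
      (F i).du v w < min (1 / ((k : ℝ) + 1)) ((F i).du v z) := fun k =>
    Flat.exists_reg_between le_rfl (lt_min Nat.one_div_pos_of_nat hvz') (min_le_right _ _)
  choose w hw1 hw2 hw3 hw4 using key
  have hb : ∀ k, Btw (DU F T i) (Sum.inl v) (Sum.inl (w k)) (Sum.inl z) := fun k => by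
    have := hw2 k
    unfold Btw at this ⊢
    rw [DU_inl, DU_inl, DU_inl]
    exact this
  have hpos : ∀ k, 0 < DU F T i (Sum.inl v) (Sum.inl (w k)) := fun k => by
    rw [DU_inl]
    exact hw3 k
  refine ⟨fun k => Sum.inl (w k), conv_of_segment ht hpos ?_ hb, fun k => ⟨⟨w k, rfl, hw1 k⟩, ?_⟩⟩
  · simp only [DU_inl]
    exact squeeze_zero (fun k => (hw3 k).le) (fun k => (hw4 k).le.trans (min_le_left _ _))
      tendsto_one_div_add_atTop_nhds_zero_nat
  · exact sameArm_trans ht hqz (sameArm_symm ht (btw_sameArm ht (hpos k) (hb k)))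

theorem exists_seg_s (h : Setting S T₀ T) (i : Fin r) {v : ℍ} (q : ℍ ⊕ X r 0)
    (hq : 0 < DS F T i (Sum.inl v) q) : ∃ w : ℕ → ℍ ⊕ X r 0,
      Conv (DS F T i) (Sum.inl v) w ∧
        ∀ k, IsReg F i (w k) ∧ SameArm (DS F T i) (Sum.inl v) q (w k) := by
  obtain ⟨w, h1, h2⟩ := exists_seg_u (F := fun i => (F i).rev) h.symm i q hq
  refine ⟨w, h1, fun k => ⟨?_, (h2 k).2⟩⟩
  obtain ⟨z, hz, hz'⟩ := (h2 k).1
  exact ⟨z, hz, Flat.reg_rev.1 hz'⟩

/-- The signed distance up to sign. -/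
theorem rho_eq_su (h : Setting S T₀ T) (i : Fin r) {w v : ℍ} (hw : (F i).Reg w)
    (hv : 0 < (F i).du w v) : ∃ ε : ℝ, (ε = 1 ∨ ε = -1) ∧ ∀ x : X r 0,
      -rho (DU F T i) (Sum.inl w) (Sum.inl v) (Sum.inr x) = ε * su F T i w x := by
  have ht := isTree_DU (F := F) h i
  have hs := h.isSys_X i
  have hab : ∀ a : ℍ ⊕ X r 0, |sgn (F i) (pX i) T w a| = DU F T i (Sum.inl w) a :=
    fun a => abs_sgn hw.leaf hs a
  have hiff : ∀ a b : ℍ ⊕ X r 0, SameArm (DU F T i) (Sum.inl w) a b ↔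
      0 < sgn (F i) (pX i) T w a * sgn (F i) (pX i) T w b :=
    fun a b => sameArm_iff_sgn hw.leaf hs a b
  have hv0 : sgn (F i) (pX i) T w (Sum.inl v) ≠ 0 := by
    rw [← abs_ne_zero, hab, DU_inl]
    exact hv.ne'
  rcases lt_or_gt_of_ne hv0 with h0 | h0
  · refine ⟨1, Or.inl rfl, fun x => ?_⟩
    rw [one_mul]
    change _ = sgn (F i) (pX i) T w (Sum.inr x)
    rcases lt_trichotomy (sgn (F i) (pX i) T w (Sum.inr x)) 0 with h1 | h1 | h1
    · have h2 : SameArm (DU F T i) (Sum.inl w) (Sum.inl v) (Sum.inr x) :=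
        (hiff _ _).2 (mul_pos_of_neg_of_neg h0 h1)
      unfold rho
      rw [if_pos h2, ← hab, abs_of_neg h1, neg_neg]
    · rw [h1, neg_eq_zero, rho_eq_zero_iff ht, ← hab, h1, abs_zero]
    · have h2 : ¬ SameArm (DU F T i) (Sum.inl w) (Sum.inl v) (Sum.inr x) := fun h3 =>
        absurd ((hiff _ _).1 h3) (not_lt.2 (mul_nonpos_of_nonpos_of_nonneg h0.le h1.le))
      unfold rho
      rw [if_neg h2, ← hab, abs_of_pos h1, neg_neg]
  · refine ⟨-1, Or.inr rfl, fun x => ?_⟩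
    rw [neg_one_mul, neg_inj]
    change _ = sgn (F i) (pX i) T w (Sum.inr x)
    rcases lt_trichotomy (sgn (F i) (pX i) T w (Sum.inr x)) 0 with h1 | h1 | h1
    · have h2 : ¬ SameArm (DU F T i) (Sum.inl w) (Sum.inl v) (Sum.inr x) := fun h3 =>
        absurd ((hiff _ _).1 h3) (not_lt.2 (mul_nonpos_of_nonneg_of_nonpos h0.le h1.le))
      unfold rho
      rw [if_neg h2, ← hab, abs_of_neg h1, neg_neg]
    · rw [h1, rho_eq_zero_iff ht, ← hab, h1, abs_zero]
    · have h2 : SameArm (DU F T i) (Sum.inl w) (Sum.inl v) (Sum.inr x) :=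
        (hiff _ _).2 (mul_pos h0 h1)
      unfold rho
      rw [if_pos h2, ← hab, abs_of_pos h1]

theorem rho_eq_ss (h : Setting S T₀ T) (i : Fin r) {w v : ℍ} (hw : (F i).Reg w)
    (hv : 0 < (F i).ds w v) : ∃ ε : ℝ, (ε = 1 ∨ ε = -1) ∧ ∀ x : X r 0,
      -rho (DS F T i) (Sum.inl w) (Sum.inl v) (Sum.inr x) = ε * ss F T i w x :=
  rho_eq_su (F := fun i => (F i).rev) h.symm i (Flat.reg_rev.2 hw) hv

/-- The translates of the points of the corner by elements of the stabilizer of the vertex converge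
to the vertex along the initial segments. -/
theorem conv_corner_u (h : Setting S T₀ T) (i : Fin r) {v b : ℍ} (hv : v ∉ (F i).U)
    (hb : (F i).Corner v b) {z : ℕ → ℍ} (hz : ∀ k, (F i).Reg (z k))
    (hz2 : ∀ k, Btw (F i).du v (z k) b) (hlim : Tendsto (fun k => (F i).du v (z k)) atTop (𝓝 0))
    {γ : ℕ → SL(2, ℝ)} (hγ : ∀ k, γ k ∈ (S i).Γ) (hγv : ∀ k, (F i).Eqv v (γ k • v)) :
    Conv (DU F T i) (Sum.inl v) (fun k => Sum.inl (γ k • z k)) := by
  have ht := isTree_DU (F := F) h i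
  have htF := (F i).isTree_u
  have hpos0 : ∀ k, 0 < (F i).du v (z k) := fun k => by
    rw [htF.symm]
    exact (hz k).pos_u hv
  have hd : ∀ k l : ℕ, (F i).du v (γ l • z k) = (F i).du v (z k) := fun k l => by
    rw [htF.congr_left (hγv l).1, (F i).dual_u.inv _ (hγ l)]
  have hbt : ∀ k l : ℕ, Btw (DU F T i) (Sum.inl v) (Sum.inl (γ l • z k))
      (Sum.inl (γ l • b)) := fun k l => by
    have h1 := hz2 k
    have e1 : (F i).du v (γ l • b) = (F i).du v b := by
      rw [htF.congr_left (hγv l).1, (F i).dual_u.inv _ (hγ l)]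
    unfold Btw at h1 ⊢
    rw [DU_inl, DU_inl, DU_inl, hd, (F i).dual_u.inv _ (hγ l) (z k) b, e1]
    exact h1
  have hpos : ∀ k l : ℕ, 0 < DU F T i (Sum.inl v) (Sum.inl (γ l • z k)) := fun k l => by
    rw [DU_inl, hd]
    exact hpos0 k
  refine ⟨fun k => hpos k k, ?_, fun p hp => ?_⟩
  · simp only [DU_inl, hd]
    exact hlim
  by_cases hex : ∃ l, SameArm (DU F T i) (Sum.inl v) p (Sum.inl (γ l • z l))
  swap
  · push Not at hex
    exact Eventually.of_forall fun k hk => absurd hk (hex k)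
  obtain ⟨l, hl⟩ := hex
  have hconv : Conv (DU F T i) (Sum.inl v) (fun k => Sum.inl (γ l • z k)) := by
    refine conv_of_segment ht (fun k => hpos k l) ?_ (fun k => hbt k l)
    simp only [DU_inl, hd]
    exact hlim
  filter_upwards [hconv.btw p hp] with k hk hk2
  -- `γ k` and `γ l` act in the same way
  have h1 : SameArm (DU F T i) (Sum.inl v) (Sum.inl (γ k • b)) (Sum.inl (γ l • b)) :=
    sameArm_trans ht (sameArm_symm ht (btw_sameArm ht (hpos k k) (hbt k k)))
      (sameArm_trans ht (sameArm_symm ht hk2) (sameArm_trans ht hl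
        (btw_sameArm ht (hpos l l) (hbt l l))))
  have hinv : (γ k)⁻¹ ∈ (S i).Γ := (S i).Γ.inv_mem (hγ k)
  have hkv : (F i).Eqv v ((γ k)⁻¹ • v) := by
    constructor
    · rw [← (F i).dual_u.inv _ (hγ k), smul_inv_smul, htF.symm]
      exact (hγv k).1
    · rw [← (F i).dual_s.inv _ (hγ k), smul_inv_smul, (F i).isTree_s.symm]
      exact (hγv k).2
  have hmem : (γ k)⁻¹ * γ l ∈ (S i).Γ := (S i).Γ.mul_mem hinv (hγ l)
  have h2 : (F i).Eqv v (((γ k)⁻¹ * γ l) • v) := by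
    constructor
    · rw [mul_smul]
      have h3 := htF.triangle v ((γ k)⁻¹ • v) ((γ k)⁻¹ • γ l • v)
      rw [hkv.1, (F i).dual_u.inv _ hinv, (hγv l).1, add_zero] at h3
      exact le_antisymm h3 (htF.nonneg _ _)
    · rw [mul_smul]
      have h3 := (F i).isTree_s.triangle v ((γ k)⁻¹ • v) ((γ k)⁻¹ • γ l • v)
      rw [hkv.2, (F i).dual_s.inv _ hinv, (hγv l).2, add_zero] at h3
      exact le_antisymm h3 ((F i).isTree_s.nonneg _ _)
  have h4 : SameArm (F i).du v b (((γ k)⁻¹ * γ l) • b) := by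
    unfold SameArm at h1 ⊢
    rw [DU_inl, DU_inl, DU_inl] at h1
    rw [mul_smul]
    have e1 : (F i).du b ((γ k)⁻¹ • γ l • b) = (F i).du (γ k • b) (γ l • b) := by
      rw [← (F i).dual_u.inv _ (hγ k), smul_inv_smul]
    have e2 : (F i).du v ((γ k)⁻¹ • γ l • b) = (F i).du v (γ l • b) := by
      rw [htF.congr_left hkv.1, (F i).dual_u.inv _ hinv]
    have e3 : (F i).du v (γ k • b) = (F i).du v b := by
      rw [htF.congr_left (hγv k).1, (F i).dual_u.inv _ (hγ k)]
    rw [e1, e2, ← e3]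
    exact h1
  have h5 := hb.stab_u hv hmem h2 h4 (z k)
  have h6 : γ l • z k = γ k • z k := by
    rw [mul_smul, inv_smul_eq_iff] at h5
    exact h5
  have hk' := hk
  rw [h6] at hk'
  exact hk' hk2

theorem conv_corner_s (h : Setting S T₀ T) (i : Fin r) {v b : ℍ} (hv : v ∉ (F i).U)
    (hb : (F i).Corner v b) {z : ℕ → ℍ} (hz : ∀ k, (F i).Reg (z k))
    (hz2 : ∀ k, Btw (F i).ds v (z k) b) (hlim : Tendsto (fun k => (F i).ds v (z k)) atTop (𝓝 0))
    {γ : ℕ → SL(2, ℝ)} (hγ : ∀ k, γ k ∈ (S i).Γ) (hγv : ∀ k, (F i).Eqv v (γ k • v)) :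
    Conv (DS F T i) (Sum.inl v) (fun k => Sum.inl (γ k • z k)) :=
  conv_corner_u (F := fun i => (F i).rev) h.symm i hv hb.rev (fun k => Flat.reg_rev.2 (hz k)) hz2
    hlim hγ (fun k => ⟨(hγv k).2, (hγv k).1⟩)

end Pool.Agent.ANO3.End
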