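import Pool.Agent.ANO3.End.Cmp

/-!
# ANO3, module End: the sum rule (package END-SUM)

If `D.dg p p' ≠ 0` then there is an arm of the first tree, different from the arm of `p`, of a point
`ι x`, `x ∈ N`, with `D.dg (ι x) p' ≠ 0`.

Proof.  Let `K = {x ∈ N : rho ds v p' x = 0, o x = 0}` (compact).  On `K ∩ frontier N` we have
`du v x > 0` (`D.ne`, `rho_eq_zero_iff`), so `du v x ≥ m > 0` there; let `0 < δ < m`.  For a set
`A ⊆ P` which is a union of arms (`∀ a b, a ∈ A → SameArm du v a b → b ∈ A`) let `R_A x = du v x` for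
`x ∈ A` with `du v x > 0`, `-du v x` otherwise (continuous as `rho`), and
`c A = deg (Phi (R_A - δ) (rho ds v p')) N`; admissible because of `δ < m`.
(1) `c A = deg (Phi R_A (rho ds v p')) N` (homotopy `R_A - t δ`), so `c {y | SameArm du v q y} =
`D.dg q p'`.  (2) `c univ = 0`: there `R = du v ·`, homotopy `du v x - δ + t (δ + 1)` to a map
without zeros (`Deg.deg_zero`).  (3) if `A`, `B` are disjoint then
`c (A ∪ B) = c A + c B`: the zero sets `Z_A = {x ∈ N : x ∈ A, du v x = δ, ..}`, `Z_B` are compact and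
disjoint, take disjoint compact neighbourhoods `N_A`, `N_B ⊆ N` (they are in the interior of `N`)
on which `R_(A ∪ B) = R_A`, resp. `= R_B`; `Deg.deg_excision`, `Deg.deg_union`, `Deg.deg_congr`.
(4) `Z_univ` is compact and each arm is open in it, so it is contained in finitely many arms, the
arms of `ι x_1, …, ι x_m`, `x_j ∈ N`, pairwise different.  By (3) and induction
`0 = c univ = ∑ j, c (arm of ι x_j) = ∑ j, D.dg (ι x_j) p'` (the rest of `P` has no zeros).
If the arm of `p` is none of these then `D.dg p p' = c (arm of p) = 0` (no zeros), contradiction; so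
it is one of them, and another summand is `≠ 0`.
-/

set_option autoImplicit false

open Set Filter Topology

namespace Pool.Agent.ANO3.End

open Pool.Agent.ANO3 Pool.Agent.ANO3.Tree

section

variable {P : Type}

/-- `A` is a union of arms. -/
private def Arms_Sum (d : P → P → ℝ) (v : P) (A : Set P) : Prop :=
  ∀ a b, SameArm d v a b → a ∈ A → b ∈ A

open Classical in
/-- The signed distance from `v`: positive on `A`, negative on the complement. -/
private noncomputable def RA_Sum (d : P → P → ℝ) (v : P) (A : Set P) (x : P) : ℝ :=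
  if x ∈ A then d v x else -d v x

private theorem RA_of_mem_Sum {d : P → P → ℝ} {v : P} {A : Set P} {x : P} (hx : x ∈ A) :
    RA_Sum d v A x = d v x := if_pos hx

private theorem RA_of_not_mem_Sum {d : P → P → ℝ} {v : P} {A : Set P} {x : P} (hx : x ∉ A) :
    RA_Sum d v A x = -d v x := if_neg hx

private theorem RA_arm_Sum (d : P → P → ℝ) (v q : P) :
    RA_Sum d v {y | SameArm d v q y} = rho d v q := rfl

end

variable {P E F : Type} [TopologicalSpace P] [NormedAddCommGroup E] [NormedSpace ℝ E]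
  [NormedAddCommGroup F] [NormedSpace ℝ F]

private theorem continuous_RA_Sum {d : P → P → ℝ} (h : IsTree d)
    (hc : Continuous fun p : P × P => d p.1 p.2) {v : P} {A : Set P} (hA : Arms_Sum d v A) :
    Continuous (RA_Sum d v A) := by
  have hv : Continuous fun x => d v x := hc.comp (continuous_const.prodMk continuous_id)
  have habs : ∀ y, |RA_Sum d v A y| = d v y := by
    intro y
    by_cases hy : y ∈ A
    · rw [RA_of_mem_Sum hy]
      exact abs_of_nonneg (h.nonneg v y)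
    · rw [RA_of_not_mem_Sum hy, abs_neg]
      exact abs_of_nonneg (h.nonneg v y)
  rw [continuous_iff_continuousAt]
  intro x
  rcases (h.nonneg v x).eq_or_lt with h0 | h0
  · have h1 : RA_Sum d v A x = 0 := by
      rw [← abs_eq_zero, habs, ← h0]
    unfold ContinuousAt
    rw [h1, tendsto_zero_iff_abs_tendsto_zero]
    have h2 : (fun y => |RA_Sum d v A y|) = fun y => d v y := by
      funext y
      exact habs y
    change Tendsto (fun y => |RA_Sum d v A y|) (𝓝 x) (𝓝 0)
    rw [h2, h0]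
    exact hv.continuousAt
  · have hx : Continuous fun y => d x y := hc.comp (continuous_const.prodMk continuous_id)
    have h1 : ∀ᶠ y in 𝓝 x, d x y < d v x := by
      refine hx.continuousAt.eventually_lt continuousAt_const ?_
      rw [h.self]
      exact h0
    by_cases h2 : x ∈ A
    · refine (hv.continuousAt (x := x)).congr ?_
      filter_upwards [h1] with y hy
      exact (RA_of_mem_Sum (hA x y (sameArm_of_lt h hy) h2)).symm
    · refine (hv.neg.continuousAt (x := x)).congr ?_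
      filter_upwards [h1] with y hy
      have h3 : y ∉ A := fun h3 => h2 (hA y x (sameArm_symm h (sameArm_of_lt h hy)) h3)
      exact (RA_of_not_mem_Sum h3).symm

omit [TopologicalSpace P] in
private theorem RA_eq_Sum {d : P → P → ℝ} (h : IsTree d) {v : P} {A : Set P} {x : P} {δ : ℝ}
    (hδ : 0 < δ) (hx : RA_Sum d v A x = δ) : x ∈ A ∧ d v x = δ := by
  by_cases hy : x ∈ A
  · rw [RA_of_mem_Sum hy] at hx
    exact ⟨hy, hx⟩
  · rw [RA_of_not_mem_Sum hy] at hx
    have := h.nonneg v x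
    linarith

private theorem Phi_eq_zero_Sum (D : Data P E F) {a b : P → ℝ} {x : E} :
    D.Phi a b x = 0 ↔ a (D.ι x) = 0 ∧ b (D.ι x) = 0 ∧ D.o x = 0 := by
  unfold Data.Phi
  rw [D.e.map_eq_zero_iff, Prod.ext_iff, Prod.ext_iff]
  simp only [Prod.fst_zero, Prod.snd_zero]
  exact and_assoc

private theorem Phi_cont_Sum (D : Data P E F) {a b : P → ℝ} (ha : Continuous a)
    (hb : Continuous b) : ContinuousOn (D.Phi a b) D.O :=
  D.e.continuous.comp_continuousOn
    (((ha.comp_continuousOn D.cι).prodMk (hb.comp_continuousOn D.cι)).prodMk D.co)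

private theorem adm_Sum (D : Data P E F) {a b : P → ℝ} (ha : Continuous a) (hb : Continuous b)
    (h : ∀ x ∈ frontier D.N, a (D.ι x) = 0 → b (D.ι x) = 0 → D.o x ≠ 0) :
    Deg.Adm (D.Phi a b) D.N :=
  ⟨D.compact, ⟨D.O, D.isOpen, D.sub, Phi_cont_Sum D ha hb⟩, fun x hx h0 => by
    obtain ⟨h1, h2, h3⟩ := (Phi_eq_zero_Sum D).1 h0
    exact h x hx h1 h2 h3⟩

private theorem homotopy_Sum [FiniteDimensional ℝ E] (D : Data P E F) {a a' b : P → ℝ}
    (ha : Continuous a) (ha' : Continuous a') (hb : Continuous b)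
    (h : ∀ t ∈ Icc (0 : ℝ) 1, ∀ x ∈ frontier D.N,
      (1 - t) * a (D.ι x) + t * a' (D.ι x) = 0 → b (D.ι x) = 0 → D.o x ≠ 0) :
    Deg.deg (D.Phi a b) D.N = Deg.deg (D.Phi a' b) D.N := by
  have : Nontrivial E := D.nontrivial
  have key := Deg.deg_homotopy (F := fun (t : ℝ) (x : E) =>
    D.e (((1 - t) * a (D.ι x) + t * a' (D.ι x), b (D.ι x)), D.o x)) D.compact D.isOpen D.sub ?_ ?_
  · have e0 : (fun x : E => D.e (((1 - (0 : ℝ)) * a (D.ι x) + 0 * a' (D.ι x), b (D.ι x)),
        D.o x)) = D.Phi a b := by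
      funext x
      unfold Data.Phi
      rw [sub_zero, one_mul, zero_mul, add_zero]
    have e1 : (fun x : E => D.e (((1 - (1 : ℝ)) * a (D.ι x) + 1 * a' (D.ι x), b (D.ι x)),
        D.o x)) = D.Phi a' b := by
      funext x
      unfold Data.Phi
      rw [sub_self, one_mul, zero_mul, zero_add]
    rw [← e0, ← e1]
    exact key
  · refine D.e.continuous.comp_continuousOn ?_
    have h1 : ContinuousOn (fun q : ℝ × E => D.ι q.2) (Icc (0 : ℝ) 1 ×ˢ D.O) :=
      D.cι.comp continuousOn_snd fun q hq => hq.2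
    have h2 : ContinuousOn (fun q : ℝ × E => D.o q.2) (Icc (0 : ℝ) 1 ×ˢ D.O) :=
      D.co.comp continuousOn_snd fun q hq => hq.2
    have h3 := ha.comp_continuousOn h1
    have h4 := ha'.comp_continuousOn h1
    have h5 := hb.comp_continuousOn h1
    have h6 : ContinuousOn (fun q : ℝ × E => q.1) (Icc (0 : ℝ) 1 ×ˢ D.O) := continuousOn_fst
    exact ((((continuousOn_const.sub h6).mul h3).add (h6.mul h4)).prodMk h5).prodMk h2
  · intro t ht x hx h0
    have h1 : (((1 - t) * a (D.ι x) + t * a' (D.ι x), b (D.ι x)), D.o x) = (0 : (ℝ × ℝ) × F) :=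
      D.e.map_eq_zero_iff.1 h0
    exact h t ht x hx (congrArg (fun q => q.1.1) h1) (congrArg (fun q => q.1.2) h1)
      (congrArg Prod.snd h1)

/-- the zeros of `Phi (R_A - δ) b` -/
private def Z_Sum (D : Data P E F) (b : P → ℝ) (δ : ℝ) (A : Set P) : Set E :=
  {x | x ∈ D.N ∧ D.ι x ∈ A ∧ D.du D.v (D.ι x) = δ ∧ b (D.ι x) = 0 ∧ D.o x = 0}

private noncomputable def c_Sum (D : Data P E F) (b : P → ℝ) (δ : ℝ) (A : Set P) : E → E :=
  D.Phi (fun x => RA_Sum D.du D.v A x - δ) b

private theorem c_cont_Sum (D : Data P E F) {b : P → ℝ} (hb : Continuous b) {δ : ℝ} {A : Set P}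
    (hA : Arms_Sum D.du D.v A) : ContinuousOn (c_Sum D b δ A) D.O :=
  Phi_cont_Sum D ((continuous_RA_Sum D.hu D.cu hA).sub continuous_const) hb

private theorem c_zero_Sum (D : Data P E F) {b : P → ℝ} {δ : ℝ} (hδ : 0 < δ) {A : Set P} {x : E} :
    c_Sum D b δ A x = 0 ↔
      D.ι x ∈ A ∧ D.du D.v (D.ι x) = δ ∧ b (D.ι x) = 0 ∧ D.o x = 0 := by
  unfold c_Sum
  rw [Phi_eq_zero_Sum]
  constructor
  · rintro ⟨h1, h2, h3⟩
    obtain ⟨h4, h5⟩ := RA_eq_Sum D.hu hδ (sub_eq_zero.1 h1)
    exact ⟨h4, h5, h2, h3⟩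
  · rintro ⟨h1, h2, h3, h4⟩
    refine ⟨?_, h3, h4⟩
    rw [RA_of_mem_Sum h1, h2, sub_self]

private theorem Z_compact_Sum (D : Data P E F) {b : P → ℝ} (hb : Continuous b) {δ : ℝ}
    (hδ : 0 < δ) {A : Set P} (hA : Arms_Sum D.du D.v A) : IsCompact (Z_Sum D b δ A) := by
  have h1 : Z_Sum D b δ A = D.N ∩ c_Sum D b δ A ⁻¹' {0} := by
    ext x
    simp only [Z_Sum, mem_ofPred_eq, mem_inter_iff, mem_preimage, mem_singleton_iff,
      c_zero_Sum D hδ]
  rw [h1]
  exact D.compact.of_isClosed_subset (((c_cont_Sum D hb hA).mono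
    D.sub).preimage_isClosed_of_isClosed D.compact.isClosed isClosed_singleton) inter_subset_left

private theorem c_adm_Sum (D : Data P E F) {b : P → ℝ} (hb : Continuous b) {δ : ℝ}
    (hδ : 0 < δ) (hm : ∀ x ∈ frontier D.N, b (D.ι x) = 0 → D.o x = 0 → δ < D.du D.v (D.ι x))
    {A : Set P} (hA : Arms_Sum D.du D.v A) : Deg.Adm (c_Sum D b δ A) D.N :=
  ⟨D.compact, ⟨D.O, D.isOpen, D.sub, c_cont_Sum D hb hA⟩, fun x hx h0 => by
    obtain ⟨_, h2, h3, h4⟩ := (c_zero_Sum D hδ).1 h0
    exact (hm x hx h3 h4).ne h2.symm⟩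

/-- a compact neighbourhood of the zeros in `A` -/
private theorem nbhd_Sum [FiniteDimensional ℝ E] (D : Data P E F) {b : P → ℝ}
    (hb : Continuous b) {δ : ℝ} (hδ : 0 < δ)
    (hm : ∀ x ∈ frontier D.N, b (D.ι x) = 0 → D.o x = 0 → δ < D.du D.v (D.ι x))
    {A : Set P} (hA : Arms_Sum D.du D.v A) :
    ∃ M U : Set E, IsCompact M ∧ IsOpen U ∧ Z_Sum D b δ A ⊆ interior M ∧ M ⊆ U ∧ M ⊆ D.N ∧
      U ⊆ D.O ∧ ∀ x ∈ U, D.ι x ∈ A := by
  have : ProperSpace E := FiniteDimensional.proper ℝ E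
  obtain ⟨U, hU⟩ : ∃ U : Set E, U = D.O ∩ D.ι ⁻¹' {y | 0 < RA_Sum D.du D.v A y} := ⟨_, rfl⟩
  have hUo : IsOpen U := by
    rw [hU]
    exact D.cι.isOpen_inter_preimage D.isOpen
      (isOpen_lt continuous_const (continuous_RA_Sum D.hu D.cu hA))
  have hUA : ∀ x ∈ U, D.ι x ∈ A := by
    intro x hx
    rw [hU] at hx
    by_contra h1
    have h2 : 0 < RA_Sum D.du D.v A (D.ι x) := hx.2
    rw [RA_of_not_mem_Sum h1] at h2
    have := D.hu.nonneg D.v (D.ι x)
    linarith
  have hZ : Z_Sum D b δ A ⊆ U ∩ interior D.N := by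
    rintro x ⟨hx1, hx2, hx3, hx4, hx5⟩
    refine ⟨?_, ?_⟩
    · rw [hU]
      refine ⟨D.sub hx1, ?_⟩
      change 0 < RA_Sum D.du D.v A (D.ι x)
      rw [RA_of_mem_Sum hx2, hx3]
      exact hδ
    · by_contra h1
      exact (hm x ⟨subset_closure hx1, h1⟩ hx4 hx5).ne hx3.symm
  obtain ⟨M, hM, hM1, hM2⟩ := exists_compact_between (Z_compact_Sum D hb hδ hA)
    (hUo.inter isOpen_interior) hZ
  refine ⟨M, U, hM, hUo, hM1, hM2.trans inter_subset_left,
    (hM2.trans inter_subset_right).trans interior_subset, ?_, hUA⟩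
  rw [hU]
  exact inter_subset_left

private theorem add_Sum [FiniteDimensional ℝ E] (D : Data P E F) {b : P → ℝ}
    (hb : Continuous b) {δ : ℝ} (hδ : 0 < δ)
    (hm : ∀ x ∈ frontier D.N, b (D.ι x) = 0 → D.o x = 0 → δ < D.du D.v (D.ι x))
    {A B : Set P} (hA : Arms_Sum D.du D.v A) (hB : Arms_Sum D.du D.v B) (hAB : Disjoint A B) :
    Deg.deg (c_Sum D b δ (A ∪ B)) D.N =
      Deg.deg (c_Sum D b δ A) D.N + Deg.deg (c_Sum D b δ B) D.N := by
  have : Nontrivial E := D.nontrivial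
  have hU : Arms_Sum D.du D.v (A ∪ B) := by
    intro x y hxy hx
    rcases hx with hx | hx
    · exact Or.inl (hA x y hxy hx)
    · exact Or.inr (hB x y hxy hx)
  obtain ⟨M, U, hM, hUo, hM1, hM2, hM3, hUO, hUA⟩ := nbhd_Sum D hb hδ hm hA
  obtain ⟨M', U', hM', hUo', hM1', hM2', hM3', hUO', hUB⟩ := nbhd_Sum D hb hδ hm hB
  have cA := c_adm_Sum D hb hδ hm hA
  have cB := c_adm_Sum D hb hδ hm hB
  have cU := c_adm_Sum D hb hδ hm hU
  -- zeros of the union
  have z : ∀ x ∈ D.N, c_Sum D b δ (A ∪ B) x = 0 → x ∈ interior M ∨ x ∈ interior M' := by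
    intro x hx h0
    obtain ⟨h1, h2, h3, h4⟩ := (c_zero_Sum D hδ).1 h0
    rcases h1 with h1 | h1
    · exact Or.inl (hM1 ⟨hx, h1, h2, h3, h4⟩)
    · exact Or.inr (hM1' ⟨hx, h1, h2, h3, h4⟩)
  have hi : interior M ⊆ interior (M ∪ M') := interior_mono subset_union_left
  have hi' : interior M' ⊆ interior (M ∪ M') := interior_mono subset_union_right
  have hd : Disjoint M M' := by
    rw [Set.disjoint_left]
    intro x hx hx'
    exact Set.disjoint_left.1 hAB (hUA x (hM2 hx)) (hUB x (hM2' hx'))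
  have e1 : Deg.deg (c_Sum D b δ (A ∪ B)) D.N = Deg.deg (c_Sum D b δ (A ∪ B)) (M ∪ M') := by
    refine Deg.deg_excision cU (hM.union hM') (union_subset hM3 hM3') fun x hx hx' h0 => ?_
    rcases z x hx h0 with h1 | h1
    · exact hx' (hi h1)
    · exact hx' (hi' h1)
  have a1 : Deg.Adm (c_Sum D b δ (A ∪ B)) (M ∪ M') := by
    refine ⟨hM.union hM', ⟨D.O, D.isOpen, union_subset (hM3.trans D.sub) (hM3'.trans D.sub),
      c_cont_Sum D hb hU⟩, fun x hx h0 => ?_⟩
    have hx1 : x ∈ M ∪ M' := (hM.union hM').isClosed.frontier_subset hx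
    rcases z x ((union_subset hM3 hM3') hx1) h0 with h1 | h1
    · exact hx.2 (hi h1)
    · exact hx.2 (hi' h1)
  have e2 := Deg.deg_union a1 hM hM' hd
  have e3 : Deg.deg (c_Sum D b δ (A ∪ B)) M = Deg.deg (c_Sum D b δ A) M := by
    refine Deg.deg_congr ⟨hM, ⟨D.O, D.isOpen, hM3.trans D.sub, c_cont_Sum D hb hU⟩,
      fun x hx h0 => ?_⟩ hUo hM2 fun x hx => ?_
    · have hx1 : x ∈ M := hM.isClosed.frontier_subset hx
      rcases z x (hM3 hx1) h0 with h1 | h1
      · exact hx.2 h1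
      · exact Set.disjoint_left.1 hd hx1 (interior_subset h1)
    · have h1 := hUA x hx
      have h2 : RA_Sum D.du D.v (A ∪ B) (D.ι x) = RA_Sum D.du D.v A (D.ι x) := by
        rw [RA_of_mem_Sum h1, RA_of_mem_Sum (mem_union_left B h1)]
      unfold c_Sum Data.Phi
      simp only [h2]
  have e4 : Deg.deg (c_Sum D b δ (A ∪ B)) M' = Deg.deg (c_Sum D b δ B) M' := by
    refine Deg.deg_congr ⟨hM', ⟨D.O, D.isOpen, hM3'.trans D.sub, c_cont_Sum D hb hU⟩,
      fun x hx h0 => ?_⟩ hUo' hM2' fun x hx => ?_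
    · have hx1 : x ∈ M' := hM'.isClosed.frontier_subset hx
      rcases z x (hM3' hx1) h0 with h1 | h1
      · exact Set.disjoint_left.1 hd (interior_subset h1) hx1
      · exact hx.2 h1
    · have h1 := hUB x hx
      have h2 : RA_Sum D.du D.v (A ∪ B) (D.ι x) = RA_Sum D.du D.v B (D.ι x) := by
        rw [RA_of_mem_Sum h1, RA_of_mem_Sum (mem_union_right A h1)]
      unfold c_Sum Data.Phi
      simp only [h2]
  have e5 : Deg.deg (c_Sum D b δ A) D.N = Deg.deg (c_Sum D b δ A) M := by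
    refine Deg.deg_excision cA hM hM3 fun x hx hx' h0 => ?_
    obtain ⟨h1, h2, h3, h4⟩ := (c_zero_Sum D hδ).1 h0
    exact hx' (hM1 ⟨hx, h1, h2, h3, h4⟩)
  have e6 : Deg.deg (c_Sum D b δ B) D.N = Deg.deg (c_Sum D b δ B) M' := by
    refine Deg.deg_excision cB hM' hM3' fun x hx hx' h0 => ?_
    obtain ⟨h1, h2, h3, h4⟩ := (c_zero_Sum D hδ).1 h0
    exact hx' (hM1' ⟨hx, h1, h2, h3, h4⟩)
  rw [e1, e2, e3, e4, e5, e6]

/-- no zeros outside finitely many arms of degree zero -/
private theorem fin_Sum [FiniteDimensional ℝ E] (D : Data P E F) {b : P → ℝ}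
    (hb : Continuous b) {δ : ℝ} (hδ : 0 < δ)
    (hm : ∀ x ∈ frontier D.N, b (D.ι x) = 0 → D.o x = 0 → δ < D.du D.v (D.ι x))
    (s : Finset E) (hs : ∀ z ∈ s, Deg.deg (c_Sum D b δ {y | SameArm D.du D.v (D.ι z) y}) D.N = 0) :
    ∀ A : Set P, Arms_Sum D.du D.v A →
      (∀ x ∈ Z_Sum D b δ A, ∃ z ∈ s, SameArm D.du D.v (D.ι z) (D.ι x)) →
      Deg.deg (c_Sum D b δ A) D.N = 0 := by
  classical
  have : Nontrivial E := D.nontrivial
  induction s using Finset.induction_on with
  | empty =>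
    intro A hA h
    refine Deg.deg_zero (c_adm_Sum D hb hδ hm hA) fun x hx h0 => ?_
    obtain ⟨h1, h2, h3, h4⟩ := (c_zero_Sum D hδ).1 h0
    obtain ⟨z, hz, _⟩ := h x ⟨hx, h1, h2, h3, h4⟩
    simp at hz
  | insert z s _ ih =>
    intro A hA h
    have ih' := ih fun z' hz' => hs z' (Finset.mem_insert_of_mem hz')
    by_cases hz : D.ι z ∈ A
    · have hB : Arms_Sum D.du D.v {y | SameArm D.du D.v (D.ι z) y} := fun x y hxy hx =>
        sameArm_trans D.hu hx hxy
      have hC : Arms_Sum D.du D.v (A \ {y | SameArm D.du D.v (D.ι z) y}) := fun x y hxy hx =>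
        ⟨hA x y hxy hx.1, fun hy => hx.2 (sameArm_trans D.hu hy (sameArm_symm D.hu hxy))⟩
      have e : A = {y | SameArm D.du D.v (D.ι z) y} ∪ A \ {y | SameArm D.du D.v (D.ι z) y} := by
        rw [union_sdiff_self, eq_comm, union_eq_right]
        exact fun y hy => hA _ y hy hz
      rw [e, add_Sum D hb hδ hm hB hC disjoint_sdiff_right,
        hs z (Finset.mem_insert_self z s), zero_add]
      refine ih' _ hC ?_
      rintro x ⟨hx1, hx2, hx3⟩
      obtain ⟨z', hz', hz2⟩ := h x ⟨hx1, hx2.1, hx3⟩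
      rcases Finset.mem_insert.1 hz' with h1 | h1
      · rw [h1] at hz2
        exact absurd hz2 hx2.2
      · exact ⟨z', h1, hz2⟩
    · refine ih' A hA ?_
      rintro x hx
      obtain ⟨z', hz', hz2⟩ := h x hx
      rcases Finset.mem_insert.1 hz' with h1 | h1
      · rw [h1] at hz2
        exact absurd (hA _ _ (sameArm_symm D.hu hz2) hx.2.1) hz
      · exact ⟨z', h1, hz2⟩

theorem Data.sum_rule [FiniteDimensional ℝ E] (D : Data P E F) {p p' : P}
    (h : D.dg p p' ≠ 0) :
    ∃ x ∈ D.N, 0 < D.du D.v (D.ι x) ∧ ¬ SameArm D.du D.v p (D.ι x) ∧ D.dg (D.ι x) p' ≠ 0 := by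
  classical
  have : Nontrivial E := D.nontrivial
  by_contra hne
  push Not at hne
  refine h ?_
  obtain ⟨b, hbdef⟩ : ∃ b, b = rho D.ds D.v p' := ⟨_, rfl⟩
  have hb : Continuous b := hbdef ▸ continuous_rho D.hs D.cs D.v p'
  have hb0 : ∀ x, b x = 0 → D.ds D.v x = 0 := fun x hx =>
    (rho_eq_zero_iff D.hs D.v p' x).1 (hbdef ▸ hx)
  -- the number `δ`
  obtain ⟨δ, hδ, hm⟩ : ∃ δ > 0, ∀ x ∈ frontier D.N, b (D.ι x) = 0 → D.o x = 0 →
      δ < D.du D.v (D.ι x) := by
    have hfr : frontier D.N ⊆ D.N := D.compact.isClosed.frontier_subset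
    have hK : IsCompact (frontier D.N ∩ (fun x => (b (D.ι x), D.o x)) ⁻¹' {0}) := by
      refine D.compact.of_isClosed_subset (ContinuousOn.preimage_isClosed_of_isClosed ?_
        isClosed_frontier isClosed_singleton) (inter_subset_left.trans hfr)
      exact ((hb.comp_continuousOn D.cι).prodMk D.co).mono (hfr.trans D.sub)
    have hv : Continuous fun y => D.du D.v y :=
      D.cu.comp (continuous_const.prodMk continuous_id)
    rcases (frontier D.N ∩ (fun x => (b (D.ι x), D.o x)) ⁻¹' {0}).eq_empty_or_nonempty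
      with h1 | h1
    · refine ⟨1, one_pos, fun x hx h2 h3 => ?_⟩
      have : x ∈ frontier D.N ∩ (fun x => (b (D.ι x), D.o x)) ⁻¹' {0} := by
        refine ⟨hx, ?_⟩
        change (b (D.ι x), D.o x) = 0
        rw [h2, h3]
        rfl
      rw [h1] at this
      exact absurd this (notMem_empty x)
    · obtain ⟨x₀, hx₀, hmin⟩ := hK.exists_isMinOn h1
        ((hv.comp_continuousOn D.cι).mono (inter_subset_left.trans (hfr.trans D.sub)))
      have h4 : (b (D.ι x₀), D.o x₀) = (0 : ℝ × F) := hx₀.2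
      have h5 : 0 < D.du D.v (D.ι x₀) := by
        refine lt_of_le_of_ne (D.hu.nonneg _ _) fun h6 => ?_
        exact D.ne x₀ hx₀.1 h6.symm (hb0 _ (congrArg Prod.fst h4)) (congrArg Prod.snd h4)
      refine ⟨D.du D.v (D.ι x₀) / 2, half_pos h5, fun x hx h2 h3 => ?_⟩
      refine (half_lt_self h5).trans_le (hmin ⟨hx, ?_⟩)
      change (b (D.ι x), D.o x) = 0
      rw [h2, h3]
      rfl
  -- the degree of an arm
  have arm : ∀ q, Deg.deg (c_Sum D b δ {y | SameArm D.du D.v q y}) D.N = D.dg q p' := by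
    intro q
    unfold Data.dg c_Sum
    rw [RA_arm_Sum, ← hbdef]
    refine homotopy_Sum D ((continuous_rho D.hu D.cu D.v q).sub continuous_const)
      (continuous_rho D.hu D.cu D.v q) hb fun t ht x hx h1 h2 h3 => ?_
    have h4 : rho D.du D.v q (D.ι x) = (1 - t) * δ := by
      rw [← sub_eq_zero, ← h1]
      ring
    have h5 := abs_rho D.hu D.v q (D.ι x)
    rw [h4, abs_of_nonneg (mul_nonneg (by linarith [ht.2]) hδ.le)] at h5
    have h6 := hm x hx h2 h3
    have h7 : (1 - t) * δ ≤ 1 * δ := mul_le_mul_of_nonneg_right (by linarith [ht.1]) hδ.le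
    linarith
  -- the total degree
  have huniv : Arms_Sum D.du D.v univ := fun _ _ _ _ => mem_univ _
  have tot : Deg.deg (c_Sum D b δ univ) D.N = 0 := by
    have hv : Continuous fun y => D.du D.v y :=
      D.cu.comp (continuous_const.prodMk continuous_id)
    have e1 : Deg.deg (c_Sum D b δ univ) D.N =
        Deg.deg (D.Phi (fun y => D.du D.v y + 1) b) D.N := by
      refine homotopy_Sum D ((continuous_RA_Sum D.hu D.cu huniv).sub continuous_const)
        (hv.add continuous_const) hb fun t ht x hx h1 h2 h3 => ?_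
      rw [RA_of_mem_Sum (mem_univ _)] at h1
      have h6 := hm x hx h2 h3
      have h7 : (1 - t) * δ ≤ 1 * δ := mul_le_mul_of_nonneg_right (by linarith [ht.1]) hδ.le
      have h8 := ht.1
      nlinarith
    rw [e1]
    have key : ∀ x ∈ D.N, D.Phi (fun y => D.du D.v y + 1) b x ≠ 0 := by
      intro x _ h0
      have h1 := ((Phi_eq_zero_Sum D).1 h0).1
      have h2 := D.hu.nonneg D.v (D.ι x)
      linarith
    exact Deg.deg_zero ⟨D.compact, ⟨D.O, D.isOpen, D.sub,
      Phi_cont_Sum D (hv.add continuous_const) hb⟩,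
      fun x hx => key x (D.compact.isClosed.frontier_subset hx)⟩ key
  -- the arm of `p` and the rest
  have hB : Arms_Sum D.du D.v {y | SameArm D.du D.v p y} := fun x y hxy hx =>
    sameArm_trans D.hu hx hxy
  have hC : Arms_Sum D.du D.v (univ \ {y | SameArm D.du D.v p y}) := fun x y hxy hx =>
    ⟨mem_univ _, fun hy => hx.2 (sameArm_trans D.hu hy (sameArm_symm D.hu hxy))⟩
  have e : (univ : Set P) = {y | SameArm D.du D.v p y} ∪ univ \ {y | SameArm D.du D.v p y} := by
    rw [union_sdiff_self, union_univ]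
  have rest : Deg.deg (c_Sum D b δ (univ \ {y | SameArm D.du D.v p y})) D.N = 0 := by
    obtain ⟨t, ht, hcov⟩ := (Z_compact_Sum D hb hδ hC).elim_nhds_subcover
      (fun z => D.O ∩ D.ι ⁻¹' {y | SameArm D.du D.v (D.ι z) y}) (fun z hz => by
        refine IsOpen.mem_nhds ?_ ⟨D.sub hz.1, sameArm_refl D.hu ?_⟩
        · have h1 : {y | SameArm D.du D.v (D.ι z) y} = {y | 0 < rho D.du D.v (D.ι z) y} := by
            ext y
            exact (rho_pos_iff D.hu D.v (D.ι z) y).symm
          rw [h1]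
          exact D.cι.isOpen_inter_preimage D.isOpen
            (isOpen_lt continuous_const (continuous_rho D.hu D.cu D.v _))
        · rw [hz.2.2.1]
          exact hδ)
    refine fin_Sum D hb hδ hm t (fun z hz => ?_) _ hC fun x hx => ?_
    · rw [arm]
      have h1 := ht z hz
      refine hne z h1.1 ?_ h1.2.1.2
      rw [h1.2.2.1]
      exact hδ
    · have h1 := hcov hx
      simp only [mem_iUnion] at h1
      obtain ⟨z, hz, hz2⟩ := h1
      exact ⟨z, hz, hz2.2⟩
  rw [e, add_Sum D hb hδ hm hB hC disjoint_sdiff_right, rest, add_zero, arm] at tot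
  exact tot

end Pool.Agent.ANO3.End
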